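import Pool.Agent.H.MP_56d946_al.Stack

set_option autoImplicit false
set_option linter.unusedSectionVars false

namespace Pool.Agent.H.MP_56d946_al

open Turing StateTransition
open Function (update)

/-- Halting in terms of the evaluation of Mathlib. -/
theorem halts_iff {α : Type} (f : α → Option α) (a : α) : Halts f a ↔ (eval f a).Dom := by
  rw [Part.dom_iff_mem]
  constructor
  · rintro ⟨b, h1, h2⟩; exact ⟨b, mem_eval.mpr ⟨h1, h2⟩⟩
  · rintro ⟨b, hb⟩; exact ⟨b, (mem_eval.mp hb).1, (mem_eval.mp hb).2⟩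

/-- Labels and statements. -/
inductive MS (K Γ₀ Λ σ : Type)
  | lab (l : Λ)
  | st (q : TM2.Stmt (fun _ : K => Γ₀) Λ σ)

variable {K Γ₀ Λ σ : Type} [DecidableEq K]

/-- The program of a TM2 machine in elementary instructions. -/
def prog (M : Λ → TM2.Stmt (fun _ : K => Γ₀) Λ σ) :
    MS K Γ₀ Λ σ × σ → Instr (MS K Γ₀ Λ σ × σ) K Γ₀
  | (MS.lab l, v) => Instr.jump (MS.st (M l), v)
  | (MS.st (TM2.Stmt.push k f q), v) => Instr.push k (f v) (MS.st q, v)
  | (MS.st (TM2.Stmt.peek k f q), v) => Instr.peek k (fun o => (MS.st q, f v o))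
  | (MS.st (TM2.Stmt.pop k f q), v) => Instr.pop k (fun o => (MS.st q, f v o))
  | (MS.st (TM2.Stmt.load a q), v) => Instr.jump (MS.st q, a v)
  | (MS.st (TM2.Stmt.branch f q₁ q₂), v) => Instr.jump (MS.st (cond (f v) q₁ q₂), v)
  | (MS.st (TM2.Stmt.goto f), v) => Instr.jump (MS.lab (f v), v)
  | (MS.st TM2.Stmt.halt, _) => Instr.halt

/-- The configuration of the program. -/
def cfgTo : TM2.Cfg (fun _ : K => Γ₀) Λ σ → (MS K Γ₀ Λ σ × σ) × (K → List Γ₀)
  | ⟨some l, v, S⟩ => ((MS.lab l, v), S)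
  | ⟨none, v, S⟩ => ((MS.st TM2.Stmt.halt, v), S)

theorem reaches_aux (M : Λ → TM2.Stmt (fun _ : K => Γ₀) Λ σ)
    (q : TM2.Stmt (fun _ : K => Γ₀) Λ σ) : ∀ (v : σ) (S : K → List Γ₀),
    Reaches (smstep (prog M)) ((MS.st q, v), S) (cfgTo (TM2.stepAux q v S)) := by
  induction q with
  | push k f q ih =>
    intro v S
    exact Relation.ReflTransGen.head (b := ((MS.st q, v), update S k (f v :: S k))) rfl (ih _ _)
  | peek k f q ih =>
    intro v S
    exact Relation.ReflTransGen.head (b := ((MS.st q, f v (S k).head?), S)) rfl (ih _ _)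
  | pop k f q ih =>
    intro v S
    exact Relation.ReflTransGen.head
      (b := ((MS.st q, f v (S k).head?), update S k (S k).tail)) rfl (ih _ _)
  | load a q ih =>
    intro v S
    exact Relation.ReflTransGen.head (b := ((MS.st q, a v), S)) rfl (ih _ _)
  | branch f q₁ q₂ ih1 ih2 =>
    intro v S
    refine Relation.ReflTransGen.head (b := ((MS.st (cond (f v) q₁ q₂), v), S)) rfl ?_
    rw [TM2.stepAux]
    cases f v
    · exact ih2 _ _
    · exact ih1 _ _
  | goto f =>
    intro v S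
    exact Relation.ReflTransGen.single rfl
  | halt =>
    intro v S
    exact Relation.ReflTransGen.refl

theorem respects_prog (M : Λ → TM2.Stmt (fun _ : K => Γ₀) Λ σ) :
    Respects (TM2.step M) (smstep (prog M)) (fun c s => s = cfgTo c) := by
  rintro ⟨l, v, S⟩ s rfl
  cases l with
  | none => exact rfl
  | some l =>
    refine ⟨_, rfl, ?_⟩
    exact Relation.TransGen.head' (b := ((MS.st (M l), v), S)) rfl (reaches_aux M (M l) v S)

/-- The relevant labels and statements. -/
def relMS (M : Λ → TM2.Stmt (fun _ : K => Γ₀) Λ σ) (Sup : Finset Λ) : Set (MS K Γ₀ Λ σ × σ) :=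
  {p | match p.1 with
    | MS.lab l => l ∈ Sup
    | MS.st q => q = TM2.Stmt.halt ∨ ∃ l ∈ Sup, q ∈ TM2.stmts₁ (M l)}

theorem relMS_finite [Finite σ] (M : Λ → TM2.Stmt (fun _ : K => Γ₀) Λ σ) (Sup : Finset Λ) :
    (relMS M Sup).Finite := by
  have h1 : ((MS.lab '' (Sup : Set Λ)) ∪ (MS.st '' ({TM2.Stmt.halt} ∪
      ⋃ l ∈ Sup, ((TM2.stmts₁ (M l) : Finset _) : Set (TM2.Stmt (fun _ : K => Γ₀) Λ σ)))) :
      Set (MS K Γ₀ Λ σ)).Finite := by
    apply Set.Finite.union
    · exact (Finset.finite_toSet Sup).image _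
    · apply Set.Finite.image
      apply Set.Finite.union (Set.finite_singleton _)
      exact Set.Finite.biUnion (Finset.finite_toSet Sup) (fun l _ => Finset.finite_toSet _)
  refine (h1.prod (Set.finite_univ (α := σ))).subset ?_
  rintro ⟨x, v⟩ hx
  refine ⟨?_, trivial⟩
  cases x with
  | lab l => left; exact ⟨l, hx, rfl⟩
  | st q =>
    right
    rcases hx with hx | ⟨l, hl, hq⟩
    · exact ⟨q, Or.inl hx, rfl⟩
    · refine ⟨q, Or.inr ?_, rfl⟩
      simp only [Set.mem_iUnion]
      exact ⟨l, hl, hq⟩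

theorem relMS_closed (M : Λ → TM2.Stmt (fun _ : K => Γ₀) Λ σ) (Sup : Finset Λ)
    (hS : ∀ l ∈ Sup, TM2.SupportsStmt Sup (M l)) {p : MS K Γ₀ Λ σ × σ} (hp : p ∈ relMS M Sup)
    {S : K → List Γ₀} {c : (MS K Γ₀ Λ σ × σ) × (K → List Γ₀)}
    (hc : smstep (prog M) (p, S) = some c) : c.1 ∈ relMS M Sup := by
  classical
  obtain ⟨x, v⟩ := p
  cases x with
  | lab l =>
    have h1 : c = ((MS.st (M l), v), S) := (Option.some.inj hc).symm
    rw [h1]
    exact Or.inr ⟨l, hp, TM2.stmts₁_self⟩
  | st q =>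
    rcases hp with hp | ⟨l, hl, hq⟩
    · subst hp
      exact absurd hc (by simp [smstep, prog])
    · have hsub := TM2.stmts₁_trans hq
      have hsup := TM2.stmts₁_supportsStmt_mono hq (hS l hl)
      have key : ∀ q' : TM2.Stmt (fun _ : K => Γ₀) Λ σ, q' ∈ TM2.stmts₁ q →
          ∀ v' : σ, ((MS.st q', v') : MS K Γ₀ Λ σ × σ) ∈ relMS M Sup :=
        fun q' hq' v' => Or.inr ⟨l, hl, hsub hq'⟩
      cases q with
      | push k f q =>
        have h1 := (Option.some.inj hc).symm
        rw [h1]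
        exact key q (by simp only [TM2.stmts₁]; exact Finset.mem_insert_of_mem TM2.stmts₁_self) _
      | peek k f q =>
        have h1 := (Option.some.inj hc).symm
        rw [h1]
        exact key q (by simp only [TM2.stmts₁]; exact Finset.mem_insert_of_mem TM2.stmts₁_self) _
      | pop k f q =>
        have h1 := (Option.some.inj hc).symm
        rw [h1]
        exact key q (by simp only [TM2.stmts₁]; exact Finset.mem_insert_of_mem TM2.stmts₁_self) _
      | load a q =>
        have h1 := (Option.some.inj hc).symm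
        rw [h1]
        exact key q (by simp only [TM2.stmts₁]; exact Finset.mem_insert_of_mem TM2.stmts₁_self) _
      | branch f q₁ q₂ =>
        have h1 := (Option.some.inj hc).symm
        rw [h1]
        refine key (cond (f v) q₁ q₂) ?_ _
        cases f v
        · simp only [TM2.stmts₁]
          exact Finset.mem_insert_of_mem (Finset.mem_union_right _ TM2.stmts₁_self)
        · simp only [TM2.stmts₁]
          exact Finset.mem_insert_of_mem (Finset.mem_union_left _ TM2.stmts₁_self)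
      | goto f =>
        have h1 := (Option.some.inj hc).symm
        rw [h1]
        exact hsup v
      | halt => exact absurd hc (by simp [smstep, prog])

/-- The vector with given coordinates. -/
def vecOf {K : Type} (a : ℤ) (f : K → ℤ) : Option K → ℤ
  | none => a
  | some k => f k

/-- The simulation of a TM2 machine by a residue machine. -/
theorem exists_rm_tm [Fintype K] [Fintype Γ₀] [Finite σ]
    (M : Λ → TM2.Stmt (fun _ : K => Γ₀) Λ σ) (Sup : Finset Λ)
    (hS : ∀ l ∈ Sup, TM2.SupportsStmt Sup (M l)) (l0 : Λ) (hl0 : l0 ∈ Sup) (v0 : σ) :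
    ∃ (m : RM (Option K)) (a0 : ℕ) (dg : Γ₀ → ℕ), ∀ S : K → List Γ₀,
      (Halts m.step (vecOf (a0 : ℤ) (fun k => num dg (2 * m.j + 1) (S k))) ↔
        (eval (TM2.step M) ⟨some l0, v0, S⟩).Dom) := by
  obtain ⟨m, idx, dg, h⟩ := exists_rm (prog M) (relMS M Sup) (relMS_finite M Sup)
  refine ⟨m, idx (MS.lab l0, v0), dg, ?_⟩
  intro S
  have h1 : (eval (smstep (prog M)) (cfgTo ⟨some l0, v0, S⟩)).Dom ↔
      (eval (TM2.step M) ⟨some l0, v0, S⟩).Dom := tr_eval_dom (respects_prog M) rfl
  have h2 : Respects (smstep (prog M)) m.step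
      (fun c N => c.1 ∈ relMS M Sup ∧ N = enc idx dg (2 * m.j + 1) c) := by
    rintro ⟨p, S⟩ N ⟨hp, rfl⟩
    have h3 := h p hp S
    cases hc : smstep (prog M) (p, S) with
    | none =>
      rw [hc] at h3
      exact h3
    | some c =>
      rw [hc] at h3
      exact ⟨_, ⟨relMS_closed M Sup hS hp hc, rfl⟩, Relation.TransGen.single h3⟩
  have h4 : (eval m.step (enc idx dg (2 * m.j + 1) (cfgTo ⟨some l0, v0, S⟩))).Dom ↔
      (eval (smstep (prog M)) (cfgTo ⟨some l0, v0, S⟩)).Dom :=
    tr_eval_dom h2 ⟨hl0, rfl⟩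
  rw [halts_iff, ← h1, ← h4]
  have h5 : vecOf ((idx (MS.lab l0, v0) : ℕ) : ℤ) (fun k => num dg (2 * m.j + 1) (S k)) =
      enc idx dg (2 * m.j + 1) (cfgTo (⟨some l0, v0, S⟩ : TM2.Cfg (fun _ : K => Γ₀) Λ σ)) := by
    funext o
    cases o <;> rfl
  rw [h5]

/-! ### The universal machine -/

open PartrecToTM2

instance : Fintype K' where
  elems := {K'.main, K'.rev, K'.aux, K'.stack}
  complete := by intro x; cases x <;> simp

/-- The number of the main stack for the input `2 ^ k`. -/
def inNum (b0 b1 b2 q : ℕ) : ℕ → ℕ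
  | 0 => b1 + q * b2
  | k + 1 => b0 + q * inNum b0 b1 b2 q k

theorem trNat_two_pow (k : ℕ) : trNat (2 ^ k) = List.replicate k Γ'.bit0 ++ [Γ'.bit1] := by
  have h : ∀ k : ℕ, ((2 ^ k : ℕ) : Num) = Num.pos (PosNum.bit0^[k] PosNum.one) := by
    intro k
    induction k with
    | zero => rfl
    | succ k ih =>
      rw [Function.iterate_succ_apply', pow_succ, mul_comm]
      have h2 : ((2 * 2 ^ k : ℕ) : Num) = Num.bit0 ((2 ^ k : ℕ) : Num) := by
        rw [← Num.of_to_nat (Num.bit0 ((2 ^ k : ℕ) : Num))]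
        congr 1
        rw [Num.cast_bit0]
        have := Num.to_of_nat (2 ^ k)
        rw [this]
      rw [h2, ih]
      rfl
  rw [trNat, h]
  show trPosNum (PosNum.bit0^[k] PosNum.one) = _
  induction k with
  | zero => rfl
  | succ k ih =>
    rw [Function.iterate_succ_apply', trPosNum, ih, List.replicate_succ]
    rfl

theorem num_input (dg : Γ' → ℕ) (q : ℕ) (k : ℕ) :
    num dg q (trList [2 ^ k]) = (inNum (dg Γ'.bit0) (dg Γ'.bit1) (dg Γ'.cons) q k : ℕ) := by
  have h : trList [2 ^ k] = List.replicate k Γ'.bit0 ++ [Γ'.bit1, Γ'.cons] := by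
    rw [trList, trNat_two_pow, trList]
    simp
  rw [h]
  clear h
  induction k with
  | zero => simp [num, inNum]
  | succ k ih =>
    rw [List.replicate_succ, List.cons_append, num, ih, inNum]
    push_cast; ring

/-- The simulation of a code by a residue machine. -/
theorem exists_rm_code (c : ToPartrec.Code) :
    ∃ (m : RM (Option K')) (a0 b0 b1 b2 : ℕ), ∀ k : ℕ,
      (Halts m.step ((Pi.single none (a0 : ℤ) : Option K' → ℤ) +
        (inNum b0 b1 b2 (2 * m.j + 1) k) • (Pi.single (some K'.main) (1 : ℤ))) ↔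
        (c.eval [2 ^ k]).Dom) := by
  have hsupp := tr_supports c Cont'.halt
  obtain ⟨m, a0, dg, h⟩ := exists_rm_tm (K := K') (Γ₀ := Γ') (Λ := Λ') (σ := Option Γ')
    tr (codeSupp c Cont'.halt) hsupp.2 (trNormal c Cont'.halt) hsupp.1 none
  refine ⟨m, a0, dg Γ'.bit0, dg Γ'.bit1, dg Γ'.cons, ?_⟩
  intro k
  have h1 := h (K'.elim (trList [2 ^ k]) [] [] [])
  have h2 : (eval (TM2.step tr) (init c [2 ^ k])).Dom ↔ (c.eval [2 ^ k]).Dom := by
    rw [PartrecToTM2.tr_eval]
    rfl
  rw [← h2]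
  have h3 : (Pi.single none (a0 : ℤ) : Option K' → ℤ) +
      (inNum (dg Γ'.bit0) (dg Γ'.bit1) (dg Γ'.cons) (2 * m.j + 1) k) •
        (Pi.single (some K'.main) (1 : ℤ)) =
      vecOf (a0 : ℤ) (fun k' => num dg (2 * m.j + 1) (K'.elim (trList [2 ^ k]) [] [] [] k')) := by
    funext o
    cases o with
    | none => simp [vecOf]
    | some k' =>
      cases k'
      · have := num_input dg (2 * m.j + 1) k
        simp only [vecOf, K'.elim_main, Pi.add_apply, Pi.smul_apply, Pi.single_eq_same]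
        rw [this]
        simp
      · simp [vecOf, num]
      · simp [vecOf, num]
      · simp [vecOf, num]
  rw [h3]
  exact h1

end Pool.Agent.H.MP_56d946_al
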