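import Pool.Agent.H.MP_56d946_al.FinAut
import Pool.Agent.H.MP_56d946_al.TM

set_option autoImplicit false
set_option linter.unusedSectionVars false

namespace Pool.Agent.H.MP_56d946_al

open Turing

/-! ### An undecidable halting problem -/

theorem exists_code_undec : ∃ c : ToPartrec.Code,
    ¬ ComputablePred (fun k : ℕ => (c.eval [2 ^ k]).Dom) := by
  let u : ℕ →. ℕ := fun k => Nat.Partrec.Code.eval (Denumerable.ofNat Nat.Partrec.Code k) 0
  have hu : Partrec u :=
    Nat.Partrec.Code.eval_part.comp (Computable.ofNat _) (Computable.const 0)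
  let pw : ℕ → ℕ := fun k => 2 ^ k
  have hpw : Computable pw := by
    have h1 : Primrec (Nat.rec 1 (fun _ b => 2 * b) : ℕ → ℕ) := by
      apply Primrec.nat_rec₁
      exact Primrec.nat_mul.comp₂ (Primrec₂.const 2) Primrec₂.right
    have h2 : pw = (Nat.rec 1 (fun _ b => 2 * b) : ℕ → ℕ) := by
      funext k
      induction k with
      | zero => rfl
      | succ k ih =>
        show 2 ^ (k + 1) = 2 * _
        rw [← ih]; simp only [pw]; ring
    rw [h2]
    exact h1.to_comp
  let fd : ℕ →. ℕ := fun n => Nat.rfind (fun k => Part.some (decide (n ≤ pw k)))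
  have hfd : Partrec fd := by
    apply Partrec.rfind
    have h1 : Computable₂ (fun (n k : ℕ) => decide (n ≤ pw k)) := by
      have h2 : Computable₂ (fun (n k : ℕ) => decide (n ≤ k)) := Primrec.nat_le.decide.to_comp
      exact h2.comp Computable.fst (hpw.comp Computable.snd)
    exact h1.partrec₂
  let f : ℕ →. ℕ := fun n => (fd n).bind u
  have hf : Partrec f := hfd.bind (hu.comp Computable.snd)
  have hfk : ∀ k, f (2 ^ k) = u k := by
    intro k
    have h1 : k ∈ fd (2 ^ k) := by
      simp only [fd]
      rw [Nat.mem_rfind]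
      refine ⟨by simp [pw], ?_⟩
      intro m hm
      simp only [Part.mem_some_iff, pw]
      have : ¬ (2 ^ k ≤ 2 ^ m) := by
        rw [not_le]
        exact Nat.pow_lt_pow_right (by norm_num) hm
      simp [this]
    have h2 : fd (2 ^ k) = Part.some k := Part.eq_some_iff.mpr h1
    simp only [f]
    rw [h2, Part.bind_some]
  obtain ⟨c, hc⟩ := ToPartrec.Code.exists_code (Nat.Partrec'.part_iff₁.mpr hf)
  refine ⟨c, ?_⟩
  intro hcomp
  have h1 : ∀ k, (c.eval [2 ^ k]).Dom ↔ (u k).Dom := by
    intro k
    have := hc ⟨[2 ^ k], rfl⟩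
    have h2 : c.eval [2 ^ k] = pure <$> f (2 ^ k) := this
    rw [h2, hfk]
    rfl
  apply ComputablePred.halting_problem 0
  have h2 : ComputablePred (fun k : ℕ => (u k).Dom) := hcomp.of_eq h1
  have h3 : ComputablePred (fun c : Nat.Partrec.Code => (u (Encodable.encode c)).Dom) := by
    obtain ⟨f', hf', hfe⟩ := ComputablePred.computable_iff.mp h2
    refine ComputablePred.computable_iff.mpr ⟨fun c => f' (Encodable.encode c),
      hf'.comp Computable.encode, ?_⟩
    funext c
    exact congrFun hfe (Encodable.encode c)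
  refine h3.of_eq ?_
  intro c
  simp [u]

/-! ### Isomorphism of extensions -/

section groups

variable {p n : ℕ} (A : Automaton p n)

theorem group_fg : Group.FG A.group := Group.closure_finite_fg _

theorem iso_mul_int {l : ℕ} (w : Fin (l + 1) → Fin p) (h : ¬ IsOfFinOrder (A.newP w)) :
    Nonempty (A.group × Multiplicative ℤ ≃* (A.ext w).group) := by
  apply A.ext_iso w (zpowersHom _ (A.newP w))
  · intro a b hab
    have h1 := injective_zpow_iff_not_isOfFinOrder.mpr h
    have h2 : (A.newP w) ^ (Multiplicative.toAdd a) = (A.newP w) ^ (Multiplicative.toAdd b) := hab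
    exact Multiplicative.toAdd.injective (h1 h2)
  · exact Subgroup.range_zpowersHom _

theorem iso_zpowers {l : ℕ} (w : Fin (l + 1) → Fin p) :
    Nonempty (A.group × Subgroup.zpowers (A.newP w) ≃* (A.ext w).group) := by
  apply A.ext_iso w (Subgroup.zpowers (A.newP w)).subtype (Subgroup.subtype_injective _)
  exact Subgroup.range_subtype _

theorem ext_iso_iff {l l' : ℕ} (w : Fin (l + 1) → Fin p) (w' : Fin (l' + 1) → Fin p)
    (h' : ¬ IsOfFinOrder (A.newP w')) :
    Nonempty ((A.ext w).group ≃* (A.ext w').group) ↔ ¬ IsOfFinOrder (A.newP w) := by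
  obtain ⟨e'⟩ := iso_mul_int A w' h'
  constructor
  · rintro ⟨e⟩ hfin
    obtain ⟨e1⟩ := iso_zpowers A w
    let E : A.group × Multiplicative ℤ ≃* A.group × Subgroup.zpowers (A.newP w) :=
      e'.trans (e.symm.trans e1.symm)
    refine not_iso (group_fg A) (fun x : Multiplicative ℤ => ((Multiplicative.toAdd x : ℤ) : ℚ))
      ?_ (Multiplicative.ofAdd 1) ?_ ?_ E
    · intro x y
      simp
    · simp
    · rintro ⟨x, hx⟩
      obtain ⟨k, rfl⟩ := Subgroup.mem_zpowers_iff.mp hx
      have h1 : IsOfFinOrder (A.newP w ^ k) := hfin.zpow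
      exact Submonoid.isOfFinOrder_coe.mp h1
  · intro h
    obtain ⟨e⟩ := iso_mul_int A w h
    exact ⟨e.symm.trans e'⟩

end groups

/-! ### Codes -/

/-- The code of an extension, computed from lists. -/
def tabF (p n : ℕ) (rows : List (List (ℕ × ℕ))) (q0 : ℕ) (u : List ℕ) :
    ℕ × ℕ × List (List (ℕ × ℕ)) :=
  (p + 2, n + (u.length + 1),
    rows.map (fun row => row ++ (List.range (u.length + 1)).map (fun i => (p, n + i))) ++
    [(List.range n).map (fun x => (p, x)) ++
        (List.range (u.length + 1)).map (fun i => (p, n + i)),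
      (List.range n).map (fun x => (p, x)) ++
        (List.range (u.length + 1)).map
          (fun i => ((q0 :: u).getD i 0, n + (i + 1) % (u.length + 1)))])

theorem ofFn_range {α : Type} (n : ℕ) (g : ℕ → α) :
    List.ofFn (fun i : Fin n => g i) = (List.range n).map g := by
  apply List.ext_getElem
  · simp
  · intro i h1 h2
    simp

/-- The word of an extension. -/
def wd {p : ℕ} (q0 : Fin p) (u : List (Fin p)) : Fin (u.length + 1) → Fin p :=
  fun i => (q0 :: u).get i

theorem ofFn_wd {p : ℕ} (q0 : Fin p) (u : List (Fin p)) : List.ofFn (wd q0 u) = q0 :: u :=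
  List.ofFn_get (q0 :: u)

theorem ofFn_add' {α : Type} {a b : ℕ} (f : Fin (a + b) → α) :
    List.ofFn f = List.ofFn (fun i : Fin a => f (Fin.castAdd b i)) ++
      List.ofFn (fun i : Fin b => f (Fin.natAdd a i)) := by
  rw [List.ofFn_add]; rfl

theorem code_ext {p n : ℕ} (A : Automaton p n) (q0 : Fin p) (u : List (Fin p)) :
    (A.ext (wd q0 u)).code = tabF p n A.code.2.2 q0 (u.map Fin.val) := by
  have hlen : (u.map Fin.val).length = u.length := by simp
  unfold tabF
  rw [hlen]
  unfold Automaton.code
  refine Prod.ext rfl (Prod.ext rfl ?_)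
  show List.ofFn (fun s : Fin (p + 2) => List.ofFn fun x : Fin (n + (u.length + 1)) =>
    (((A.ext (wd q0 u)).next s x : ℕ), ((A.ext (wd q0 u)).out s x : ℕ))) = _
  have hrow : ∀ s : Fin (p + 2), (List.ofFn fun x : Fin (n + (u.length + 1)) =>
      (((A.ext (wd q0 u)).next s x : ℕ), ((A.ext (wd q0 u)).out s x : ℕ))) =
      (List.ofFn fun x : Fin n =>
        (((A.ext (wd q0 u)).next s (Fin.castAdd _ x) : ℕ),
          ((A.ext (wd q0 u)).out s (Fin.castAdd _ x) : ℕ))) ++
      (List.ofFn fun x : Fin (u.length + 1) =>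
        (((A.ext (wd q0 u)).next s (Fin.natAdd _ x) : ℕ),
          ((A.ext (wd q0 u)).out s (Fin.natAdd _ x) : ℕ))) := by
    intro s
    rw [ofFn_add']
  rw [ofFn_add']
  congr 1
  · rw [List.map_ofFn]
    congr 1
    funext s
    rw [hrow]
    simp only [Function.comp]
    congr 1
    · congr 1
      funext x
      simp [Automaton.ext]
    · rw [← ofFn_range]
      congr 1
      funext x
      simp [Automaton.ext]
  · have h2 : ∀ g : Fin 2 → List (ℕ × ℕ), List.ofFn g = [g 0, g 1] := by
      intro g; simp [List.ofFn_succ]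
    rw [h2, hrow, hrow]
    congr 1
    · congr 1
      · rw [← ofFn_range]
        congr 1
        funext x
        simp [Automaton.ext]
      · rw [← ofFn_range]
        congr 1
        funext x
        simp [Automaton.ext]
    · congr 1
      congr 1
      · rw [← ofFn_range]
        congr 1
        funext x
        simp [Automaton.ext]
      · rw [← ofFn_range]
        congr 1
        funext x
        have h3 : ((q0 : ℕ) :: List.map Fin.val u).getD x 0 =
            ((wd q0 u x : Fin p) : ℕ) := by
          have h4 : ((q0 : ℕ) :: List.map Fin.val u) =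
              (q0 :: u).map Fin.val := rfl
          rw [h4, List.getD_eq_getElem _ _ (by have := x.isLt; simp; omega)]
          simp only [List.getElem_map]
          rfl
        rw [h3]
        simp [Automaton.ext, Fin.val_add]

theorem tabF_primrec (p n : ℕ) (rows : List (List (ℕ × ℕ))) (q0 : ℕ) :
    Primrec (tabF p n rows q0) := by
  have hlen : Primrec (fun u : List ℕ => u.length + 1) :=
    Primrec.succ.comp Primrec.list_length
  have hX : Primrec (fun u : List ℕ =>
      (List.range (u.length + 1)).map (fun i => (p, n + i))) := by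
    apply Primrec.list_map (Primrec.list_range.comp hlen)
    exact Primrec₂.pair.comp₂ (Primrec₂.const p)
      (Primrec.nat_add.comp₂ (Primrec₂.const n) Primrec₂.right)
  have hY : Primrec (fun u : List ℕ => (List.range (u.length + 1)).map
      (fun i => ((q0 :: u).getD i 0, n + (i + 1) % (u.length + 1)))) := by
    apply Primrec.list_map (Primrec.list_range.comp hlen)
    have h1 : Primrec₂ (fun (u : List ℕ) (i : ℕ) => (q0 :: u).getD i 0) :=
      (Primrec.list_getD 0).comp₂
        (Primrec.list_cons.comp₂ (Primrec₂.const q0) Primrec₂.left) Primrec₂.right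
    have h2 : Primrec₂ (fun (u : List ℕ) (i : ℕ) => n + (i + 1) % (u.length + 1)) :=
      Primrec.nat_add.comp₂ (Primrec₂.const n)
        (Primrec.nat_mod.comp₂ (Primrec.succ.comp₂ Primrec₂.right) (hlen.comp₂ Primrec₂.left))
    exact Primrec₂.pair.comp₂ h1 h2
  have hR : Primrec (fun u : List ℕ => rows.map (fun row => row ++
      (List.range (u.length + 1)).map (fun i => (p, n + i)))) := by
    apply Primrec.list_map (Primrec.const rows)
    exact Primrec.list_append.comp₂ Primrec₂.right (hX.comp₂ Primrec₂.left)
  have hC1 : Primrec (fun u : List ℕ => (List.range n).map (fun x => (p, x)) ++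
      (List.range (u.length + 1)).map (fun i => (p, n + i))) :=
    Primrec.list_append.comp (Primrec.const _) hX
  have hC2 : Primrec (fun u : List ℕ => (List.range n).map (fun x => (p, x)) ++
      (List.range (u.length + 1)).map
      (fun i => ((q0 :: u).getD i 0, n + (i + 1) % (u.length + 1)))) :=
    Primrec.list_append.comp (Primrec.const _) hY
  have hL : Primrec (fun u : List ℕ => [(List.range n).map (fun x => (p, x)) ++
        (List.range (u.length + 1)).map (fun i => (p, n + i)),
      (List.range n).map (fun x => (p, x)) ++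
        (List.range (u.length + 1)).map
          (fun i => ((q0 :: u).getD i 0, n + (i + 1) % (u.length + 1)))]) :=
    Primrec.list_cons.comp hC1 (Primrec.list_cons.comp hC2 (Primrec.const []))
  exact Primrec.pair (Primrec.const _) (Primrec.pair
    (Primrec.nat_add.comp (Primrec.const n) hlen) (Primrec.list_append.comp hR hL))

theorem inNum_primrec (b0 b1 b2 q : ℕ) : Primrec (inNum b0 b1 b2 q) := by
  have h1 : Primrec (Nat.rec (b1 + q * b2) (fun _ b => b0 + q * b) : ℕ → ℕ) := by
    apply Primrec.nat_rec₁
    exact Primrec.nat_add.comp₂ (Primrec₂.const b0)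
      (Primrec.nat_mul.comp₂ (Primrec₂.const q) Primrec₂.right)
  have h2 : inNum b0 b1 b2 q = (Nat.rec (b1 + q * b2) (fun _ b => b0 + q * b) : ℕ → ℕ) := by
    funext k
    induction k with
    | zero => rfl
    | succ k ih => rw [inNum, ih]
  rw [h2]
  exact h1

theorem replicate_primrec (q : ℕ) : Primrec (fun a : ℕ => List.replicate a q) := by
  have h1 : Primrec (fun a : ℕ => (List.range a).map (fun _ => q)) :=
    Primrec.list_map Primrec.list_range (Primrec₂.const q)
  refine h1.of_eq ?_
  intro a
  simp [List.map_const']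

/-- The isomorphism problem for self-similar groups is undecidable, already if one of the two
automata and the number of states of the other one are fixed. -/
theorem iso_undec_fixed : ∃ (m n₀ : ℕ) (B : Automaton m n₀), 1 ≤ m ∧ 2 ≤ n₀ ∧
    ¬ ∃ f : (ℕ × ℕ × List (List (ℕ × ℕ))) → Bool, Computable f ∧
      ∀ (n : ℕ) (A : Automaton m n), 2 ≤ n →
        (f A.code = true ↔ Nonempty (A.group ≃* B.group)) := by
  obtain ⟨c, hc⟩ := exists_code_undec
  obtain ⟨M, a0, b0, b1, b2, hM⟩ := exists_rm_code c
  obtain ⟨p, n, A, q1, q2, q0, L0, L1, hL1, hA⟩ := exists_aut M (Pi.single none (a0 : ℤ))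
    (Pi.single (some PartrecToTM2.K'.main) (1 : ℤ))
  let u : ℕ → List (Fin p) := fun k =>
    List.replicate (inNum b0 b1 b2 (2 * M.j + 1) k) q1 ++ L0 ++
      List.replicate (inNum b0 b1 b2 (2 * M.j + 1) k) q2 ++ L1
  have hkey : ∀ k, IsOfFinOrder (A.newP (wd q0 (u k))) ↔ (c.eval [2 ^ k]).Dom := by
    intro k
    rw [A.newP_order, ofFn_wd, hA, hM]
  -- an input on which the machine does not halt
  obtain ⟨k0, hk0⟩ : ∃ k0, ¬ (c.eval [2 ^ k0]).Dom := by
    by_contra hall
    push Not at hall
    apply hc
    have h1 : ComputablePred (fun _ : ℕ => True) := ComputablePred.computable_iff.mpr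
      ⟨fun _ => true, Computable.const true, by funext k; simp⟩
    exact h1.of_eq (fun k => by simp [hall k])
  have hk0' : ¬ IsOfFinOrder (A.newP (wd q0 (u k0))) := by rw [hkey]; exact hk0
  have hlen : ∀ k, 1 ≤ (u k).length := by
    intro k
    have : 1 ≤ L1.length := List.length_pos_iff.mpr hL1
    simp only [u, List.length_append]
    omega
  refine ⟨p + 2, n + ((u k0).length + 1), A.ext (wd q0 (u k0)), by omega,
    by have := hlen k0; omega, ?_⟩
  rintro ⟨f, hf, hcorr⟩
  have hfk : ∀ k, f (A.ext (wd q0 (u k))).code = true ↔ ¬ (c.eval [2 ^ k]).Dom := by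
    intro k
    rw [hcorr _ _ (by have := hlen k; omega), ext_iso_iff A _ _ hk0', hkey]
  have hu : Primrec (fun k => (u k).map Fin.val) := by
    have h1 : Primrec (fun k => List.replicate (inNum b0 b1 b2 (2 * M.j + 1) k) (q1 : ℕ) ++
        L0.map Fin.val ++
        List.replicate (inNum b0 b1 b2 (2 * M.j + 1) k) (q2 : ℕ) ++
        L1.map Fin.val) := by
      have hin := inNum_primrec b0 b1 b2 (2 * M.j + 1)
      exact Primrec.list_append.comp (Primrec.list_append.comp (Primrec.list_append.comp
        ((replicate_primrec q1).comp hin) (Primrec.const _))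
        ((replicate_primrec q2).comp hin)) (Primrec.const _)
    refine h1.of_eq ?_
    intro k
    simp [u]
  have hcomp : Computable (fun k => f (A.ext (wd q0 (u k))).code) := by
    apply hf.comp
    have h1 : Computable (fun k => tabF p n A.code.2.2 q0
        ((u k).map Fin.val)) :=
      ((tabF_primrec p n A.code.2.2 q0).comp hu).to_comp
    refine h1.of_eq ?_
    intro k
    exact (code_ext A q0 (u k)).symm
  apply hc
  have hnot : ComputablePred (fun k : ℕ => ¬ (c.eval [2 ^ k]).Dom) := by
    refine ComputablePred.computable_iff.mpr ⟨_, hcomp, ?_⟩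
    funext k
    exact propext (hfk k).symm
  exact (hnot.not).of_eq (fun k => not_not)

/-- The isomorphism problem for self-similar groups is undecidable. -/
theorem iso_undec : ¬ ∃ f : (ℕ × ℕ × List (List (ℕ × ℕ))) × (ℕ × ℕ × List (List (ℕ × ℕ))) → Bool,
    Computable f ∧ ∀ (m n m' n' : ℕ) (A : Automaton m n) (B : Automaton m' n'),
      1 ≤ m → 2 ≤ n → 1 ≤ m' → 2 ≤ n' →
      (f (A.code, B.code) = true ↔ Nonempty (A.group ≃* B.group)) := by
  rintro ⟨f, hf, hcorr⟩
  obtain ⟨m, n₀, B, hm, hn₀, hB⟩ := iso_undec_fixed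
  exact hB ⟨fun x => f (x, B.code), hf.comp (Computable.pair Computable.id (Computable.const _)),
    fun n A hn => hcorr m n m n₀ A B hm hn hm hn₀⟩

end Pool.Agent.H.MP_56d946_al
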