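import Mathlib

set_option autoImplicit false

namespace Pool.Agent.H.MP_56d946_al

/-- A finite invertible automaton with set of states `Fin m` over the alphabet `Fin n`:
`next` is the transition map, `out` is the output map, and `out s` is a permutation of the
alphabet for every state `s`. -/
structure Automaton (m n : ℕ) where
  /-- the transition map -/
  next : Fin m → Fin n → Fin m
  /-- the output map -/
  out : Fin m → Fin n → Fin n
  /-- invertibility -/
  bij : ∀ s, Function.Bijective (out s)

namespace Automaton

variable {m n : ℕ} (A : Automaton m n)

/-- The action of a state on the finite words: `s(x w) = out(s,x) t(w)` with `t = next(s,x)`. -/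
def act : Fin m → List (Fin n) → List (Fin n)
  | _, [] => []
  | s, x :: w => A.out s x :: act (A.next s x) w

theorem act_bijective : ∀ s, Function.Bijective (A.act s) := by
  have inj : ∀ v w : List (Fin n), ∀ s, A.act s v = A.act s w → v = w := by
    intro v
    induction v with
    | nil =>
      intro w s h
      cases w with
      | nil => rfl
      | cons x w => simp [act] at h
    | cons x v ih =>
      intro w s h
      cases w with
      | nil => simp [act] at h
      | cons y w =>
        simp only [act, List.cons.injEq] at h
        obtain rfl := (A.bij s).1 h.1
        rw [ih w _ h.2]
  have surj : ∀ w : List (Fin n), ∀ s, ∃ v, A.act s v = w := by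
    intro w
    induction w with
    | nil => intro s; exact ⟨[], rfl⟩
    | cons y w ih =>
      intro s
      obtain ⟨x, rfl⟩ := (A.bij s).2 y
      obtain ⟨v, rfl⟩ := ih (A.next s x)
      exact ⟨x :: v, rfl⟩
  exact fun s => ⟨fun v w h => inj v w s h, fun w => surj w s⟩

/-- The permutation of the set of words defined by a state. -/
noncomputable def perm (s : Fin m) : Equiv.Perm (List (Fin n)) :=
  Equiv.ofBijective (A.act s) (A.act_bijective s)

/-- The self-similar group of the automaton: the group generated by all its states. -/
def group : Subgroup (Equiv.Perm (List (Fin n))) := Subgroup.closure (Set.range A.perm)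

/-- The finite description of the automaton: the number of states, the number of letters and the
table which lists for every state `s` and every letter `x` the pair `(next s x, out s x)`. -/
def code : ℕ × ℕ × List (List (ℕ × ℕ)) :=
  (m, n, List.ofFn fun s => List.ofFn fun x => ((A.next s x : ℕ), (A.out s x : ℕ)))

end Automaton

end Pool.Agent.H.MP_56d946_al
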