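import Mathlib

set_option autoImplicit false

namespace Pool.Agent.H.MP_56d946_al

/-- The rational vector space of the homomorphisms to the additive group of rationals. -/
def QHom (G : Type) [Group G] : Submodule ℚ (G → ℚ) where
  carrier := {f | ∀ x y, f (x * y) = f x + f y}
  add_mem' := by
    intro f g hf hg x y
    simp only [Set.mem_ofPred_eq, Pi.add_apply] at *
    rw [hf, hg]; ring
  zero_mem' := by intro x y; simp
  smul_mem' := by
    intro c f hf x y
    simp only [Set.mem_ofPred_eq, Pi.smul_apply, smul_eq_mul] at *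
    rw [hf]; ring

theorem QHom.one {G : Type} [Group G] {f : G → ℚ} (hf : f ∈ QHom G) : f 1 = 0 := by
  have := hf 1 1
  rw [mul_one] at this
  linarith

theorem QHom.inv {G : Type} [Group G] {f : G → ℚ} (hf : f ∈ QHom G) (x : G) :
    f x⁻¹ = - f x := by
  have := hf x x⁻¹
  rw [mul_inv_cancel, QHom.one hf] at this
  linarith

theorem QHom.pow {G : Type} [Group G] {f : G → ℚ} (hf : f ∈ QHom G) (x : G) (n : ℕ) :
    f (x ^ n) = n * f x := by
  induction n with
  | zero => simp [QHom.one hf]
  | succ n ih => rw [pow_succ, hf, ih]; push_cast; ring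

theorem QHom.finiteDimensional (G : Type) [Group G] [hG : Group.FG G] :
    FiniteDimensional ℚ (QHom G) := by
  obtain ⟨S, hS⟩ := Group.fg_iff'.mp hG
  obtain ⟨S, -, hS⟩ := hS
  let φ : QHom G →ₗ[ℚ] (S → ℚ) :=
    { toFun := fun f s => f.1 s.1
      map_add' := fun f g => rfl
      map_smul' := fun c f => rfl }
  apply FiniteDimensional.of_injective φ
  rw [← LinearMap.ker_eq_bot, LinearMap.ker_eq_bot']
  intro f hf
  have h0 : ∀ s ∈ S, f.1 s = 0 := fun s hs => congrFun hf ⟨s, hs⟩
  ext x
  show f.1 x = 0
  have hx : x ∈ Subgroup.closure (S : Set G) := by rw [hS]; trivial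
  induction hx using Subgroup.closure_induction with
  | mem x hx => exact h0 x hx
  | one => exact QHom.one f.2
  | mul x y _ _ hx hy => rw [f.2, hx, hy, add_zero]
  | inv x _ hx => rw [QHom.inv f.2, hx, neg_zero]

theorem not_iso {G C1 C2 : Type} [Group G] [Group C1] [Group C2] (hG : Group.FG G)
    (φ : C1 → ℚ) (hφ : φ ∈ QHom C1) (c0 : C1) (hc0 : φ c0 ≠ 0)
    (h2 : ∀ c : C2, IsOfFinOrder c) (e : G × C1 ≃* G × C2) : False := by
  have hfd := QHom.finiteDimensional G
  let ψ : (QHom G × ℚ) →ₗ[ℚ] QHom G :=
    { toFun := fun p => ⟨fun g => p.1.1 (e.symm (g, 1)).1 + p.2 * φ (e.symm (g, 1)).2, by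
        intro x y
        have : e.symm (x * y, 1) = e.symm (x, 1) * e.symm (y, 1) := by
          rw [← map_mul]; congr 1; ext <;> simp
        simp only [this, Prod.fst_mul, Prod.snd_mul]
        rw [p.1.2, hφ]; ring⟩
      map_add' := by
        intro p q
        ext g
        simp only [Prod.fst_add, Prod.snd_add, Submodule.coe_add, Pi.add_apply]
        ring
      map_smul' := by
        intro c p
        ext g
        simp only [Prod.smul_fst, Prod.smul_snd, Submodule.coe_smul, Pi.smul_apply, smul_eq_mul,
          RingHom.id_apply]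
        ring }
  have hinj : Function.Injective ψ := by
    rw [← LinearMap.ker_eq_bot, LinearMap.ker_eq_bot']
    rintro ⟨f, a⟩ hf
    -- the homomorphism on the product
    let F : G × C2 → ℚ := fun x => f.1 (e.symm x).1 + a * φ (e.symm x).2
    have hF : F ∈ QHom (G × C2) := by
      intro x y
      show f.1 (e.symm (x * y)).1 + a * φ (e.symm (x * y)).2 = _
      rw [map_mul, Prod.fst_mul, Prod.snd_mul, f.2, hφ]
      show _ = f.1 (e.symm x).1 + a * φ (e.symm x).2 + (f.1 (e.symm y).1 + a * φ (e.symm y).2)
      ring
    have h0 : ∀ g : G, F (g, 1) = 0 := by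
      intro g
      have := congrArg (fun k : QHom G => k.1 g) hf
      exact this
    have h1 : ∀ c : C2, F (1, c) = 0 := by
      intro c
      obtain ⟨n, hn, hc⟩ := (isOfFinOrder_iff_pow_eq_one).mp (h2 c)
      have h3 := QHom.pow hF (1, c) n
      have h4 : ((1, c) : G × C2) ^ n = 1 := by
        ext <;> simp [hc]
      rw [h4, QHom.one hF] at h3
      have : (n : ℚ) ≠ 0 := by exact_mod_cast hn.ne'
      exact (mul_eq_zero.mp h3.symm).resolve_left this
    have hall : ∀ x, F x = 0 := by
      rintro ⟨g, c⟩
      have : ((g, c) : G × C2) = (g, 1) * (1, c) := by ext <;> simp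
      rw [this, hF, h0, h1, add_zero]
    have hall' : ∀ y : G × C1, f.1 y.1 + a * φ y.2 = 0 := by
      intro y
      have := hall (e y)
      simpa [F] using this
    have ha : a = 0 := by
      have := hall' (1, c0)
      simp only [QHom.one f.2, zero_add] at this
      exact (mul_eq_zero.mp this).resolve_right hc0
    have hf0 : f = 0 := by
      ext g
      have := hall' (g, 1)
      simp only [ha, zero_mul, add_zero] at this
      exact this
    rw [ha, hf0]; rfl
  have := LinearMap.finrank_le_finrank_of_injective hinj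
  rw [Module.finrank_prod, Module.finrank_self] at this
  omega

end Pool.Agent.H.MP_56d946_al
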