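import Pool.Agent.H.MP_56d946_al.Defs
import Pool.Agent.H.MP_56d946_al.Rank

set_option autoImplicit false

namespace Pool.Agent.H.MP_56d946_al

variable {m n : ℕ}

theorem fin_dec (P : ℕ) (Q : ℕ) (x : Fin (P + Q)) :
    (∃ a : Fin P, x = Fin.castAdd Q a) ∨ (∃ b : Fin Q, x = Fin.natAdd P b) := by
  refine Fin.addCases (fun a => Or.inl ⟨a, rfl⟩) (fun b => Or.inr ⟨b, rfl⟩) x

/-! ### Splitting words -/

/-- The longest beginning consisting of old letters, and the rest. -/
def split (k : ℕ) : List (Fin (n + k)) → List (Fin n) × List (Fin (n + k))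
  | [] => ([], [])
  | x :: v => Fin.addCases (motive := fun _ => List (Fin n) × List (Fin (n + k)))
      (fun x0 => (x0 :: (split k v).1, (split k v).2)) (fun _ => ([], x :: v)) x

theorem split_nil (k : ℕ) : split (n := n) k [] = ([], []) := rfl
theorem split_old (k : ℕ) (x : Fin n) (v : List (Fin (n + k))) :
    split k (Fin.castAdd k x :: v) = (x :: (split k v).1, (split k v).2) := by
  simp [split]
theorem split_new (k : ℕ) (i : Fin k) (v : List (Fin (n + k))) :
    split k (Fin.natAdd n i :: v) = ([], Fin.natAdd n i :: v) := by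
  simp [split]

theorem split_join (k : ℕ) (v : List (Fin (n + k))) :
    (split k v).1.map (Fin.castAdd k) ++ (split k v).2 = v := by
  induction v with
  | nil => rfl
  | cons x v ih =>
    rcases fin_dec n k x with ⟨a, rfl⟩ | ⟨b, rfl⟩
    · rw [split_old]; simp [ih]
    · rw [split_new]; simp

theorem split_post (k : ℕ) (v : List (Fin (n + k))) : split k (split k v).2 = ([], (split k v).2) := by
  induction v with
  | nil => rfl
  | cons x v ih =>
    rcases fin_dec n k x with ⟨a, rfl⟩ | ⟨b, rfl⟩
    · rw [split_old]; exact ih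
    · rw [split_new]; simp only; rw [split_new]

theorem split_mk (k : ℕ) (u : List (Fin n)) (r : List (Fin (n + k))) (hr : split k r = ([], r)) :
    split k (u.map (Fin.castAdd k) ++ r) = (u, r) := by
  induction u with
  | nil => simpa using hr
  | cons x u ih => rw [List.map_cons, List.cons_append, split_old, ih]

/-- A permutation of the words in the old letters acts on all words. -/
def liftP (k : ℕ) (f : Equiv.Perm (List (Fin n))) : Equiv.Perm (List (Fin (n + k))) where
  toFun v := (f (split k v).1).map (Fin.castAdd k) ++ (split k v).2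
  invFun v := (f.symm (split k v).1).map (Fin.castAdd k) ++ (split k v).2
  left_inv v := by
    dsimp only
    rw [split_mk k _ _ (split_post k v)]
    simp only [Equiv.symm_apply_apply]
    exact split_join k v
  right_inv v := by
    dsimp only
    rw [split_mk k _ _ (split_post k v)]
    simp only [Equiv.apply_symm_apply]
    exact split_join k v

theorem liftP_apply (k : ℕ) (f : Equiv.Perm (List (Fin n))) (v : List (Fin (n + k))) :
    liftP k f v = (f (split k v).1).map (Fin.castAdd k) ++ (split k v).2 := rfl

theorem split_liftP (k : ℕ) (f : Equiv.Perm (List (Fin n))) (v : List (Fin (n + k))) :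
    split k (liftP k f v) = (f (split k v).1, (split k v).2) := by
  rw [liftP_apply, split_mk k _ _ (split_post k v)]

/-- The lift as a homomorphism. -/
def liftH (k : ℕ) : Equiv.Perm (List (Fin n)) →* Equiv.Perm (List (Fin (n + k))) where
  toFun := liftP k
  map_one' := by
    ext1 v
    rw [liftP_apply]
    exact split_join k v
  map_mul' f g := by
    ext1 v
    show liftP k (f * g) v = liftP k f (liftP k g v)
    rw [liftP_apply, liftP_apply k f, split_liftP]
    rfl

theorem liftH_apply (k : ℕ) (f : Equiv.Perm (List (Fin n))) (v : List (Fin (n + k))) :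
    liftH k f v = (f (split k v).1).map (Fin.castAdd k) ++ (split k v).2 := rfl

theorem liftH_fix {k : ℕ} {f : Equiv.Perm (List (Fin n))} (hf : f [] = [])
    {v : List (Fin (n + k))} (hv : (split k v).1 = []) : liftH k f v = v := by
  rw [liftH_apply, hv, hf]
  have := split_join k v
  rw [hv] at this
  exact this

theorem liftH_injective (k : ℕ) : Function.Injective (liftH (n := n) k) := by
  intro f g h
  ext1 u
  have h1 := congrArg (fun e : Equiv.Perm (List (Fin (n + k))) => split k (e (u.map (Fin.castAdd k)))) h
  have h2 : split k (u.map (Fin.castAdd k)) = (u, []) := by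
    have := split_mk k u [] rfl
    simpa using this
  have h3 : ∀ f : Equiv.Perm (List (Fin n)),
      split k (liftH k f (u.map (Fin.castAdd k))) = (f u, []) := by
    intro f
    have := split_liftP k f (u.map (Fin.castAdd k))
    rw [h2] at this
    exact this
  have h4 : (f u, ([] : List (Fin (n + k)))) = (g u, []) := by
    rw [← h3 f, ← h3 g]; exact h1
  exact (Prod.ext_iff.mp h4).1

/-! ### The extension of an automaton -/

namespace Automaton

/-- The extension of an automaton: a new trivial state, and a new state which permutes new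
letters cyclically, with given old states as sections. -/
def ext (A : Automaton m n) {l : ℕ} (w : Fin (l + 1) → Fin m) :
    Automaton (m + 2) (n + (l + 1)) where
  next q x := Fin.addCases (motive := fun _ => Fin (m + 2))
    (fun q0 : Fin m => Fin.addCases (motive := fun _ => Fin (m + 2))
      (fun x0 => Fin.castAdd 2 (A.next q0 x0)) (fun _ => Fin.natAdd m 0) x)
    (fun b : Fin 2 => if b = 0 then Fin.natAdd m 0 else
      Fin.addCases (motive := fun _ => Fin (m + 2))
      (fun _ => Fin.natAdd m 0) (fun i => Fin.castAdd 2 (w i)) x) q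
  out q x := Fin.addCases (motive := fun _ => Fin (n + (l + 1)))
    (fun q0 : Fin m => Fin.addCases (motive := fun _ => Fin (n + (l + 1)))
      (fun x0 => Fin.castAdd (l + 1) (A.out q0 x0)) (fun i => Fin.natAdd n i) x)
    (fun b : Fin 2 => if b = 0 then x else
      Fin.addCases (motive := fun _ => Fin (n + (l + 1)))
      (fun x0 => Fin.castAdd (l + 1) x0) (fun i => Fin.natAdd n (i + 1)) x) q
  bij := by
    intro s
    rw [← Finite.injective_iff_bijective]
    intro x y h
    rcases fin_dec m 2 s with ⟨q, rfl⟩ | ⟨b, rfl⟩
    · rcases fin_dec n (l + 1) x with ⟨a, rfl⟩ | ⟨i, rfl⟩ <;>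
      rcases fin_dec n (l + 1) y with ⟨a', rfl⟩ | ⟨i', rfl⟩
      · simp only [Fin.addCases_left] at h
        have := (A.bij q).1 ((Fin.castAdd_injective _ _) h)
        rw [this]
      · simp only [Fin.addCases_left, Fin.addCases_right] at h
        have h2 := congrArg Fin.val h
        simp only [Fin.val_castAdd, Fin.val_natAdd] at h2
        omega
      · simp only [Fin.addCases_left, Fin.addCases_right] at h
        have h2 := congrArg Fin.val h
        simp only [Fin.val_castAdd, Fin.val_natAdd] at h2
        omega
      · simp only [Fin.addCases_left, Fin.addCases_right] at h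
        exact h
    · simp only [Fin.addCases_right] at h
      by_cases hb : b = 0
      · simpa [hb] using h
      · simp only [hb, if_false] at h
        rcases fin_dec n (l + 1) x with ⟨a, rfl⟩ | ⟨i, rfl⟩ <;>
        rcases fin_dec n (l + 1) y with ⟨a', rfl⟩ | ⟨i', rfl⟩
        · simp only [Fin.addCases_left] at h
          exact h
        · simp only [Fin.addCases_left, Fin.addCases_right] at h
          have h2 := congrArg Fin.val h
          simp only [Fin.val_castAdd, Fin.val_natAdd] at h2
          have h3 : (a : ℕ) < n := a.isLt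
          rw [h2] at h3
          exact absurd h3 (Nat.not_lt.mpr (Nat.le_add_right _ _))
        · simp only [Fin.addCases_left, Fin.addCases_right] at h
          have h2 := congrArg Fin.val h
          simp only [Fin.val_castAdd, Fin.val_natAdd] at h2
          have h3 : (a' : ℕ) < n := a'.isLt
          rw [← h2] at h3
          exact absurd h3 (Nat.not_lt.mpr (Nat.le_add_right _ _))
        · simp only [Fin.addCases_right] at h
          have h2 : i + 1 = i' + 1 := (Fin.natAdd_injective _ _) h
          rw [add_right_cancel h2]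

variable (A : Automaton m n) {l : ℕ} (w : Fin (l + 1) → Fin m)

theorem ext_one_act (v : List (Fin (n + (l + 1)))) :
    (A.ext w).act (Fin.natAdd m 0) v = v := by
  induction v with
  | nil => rfl
  | cons x v ih =>
    have h1 : (A.ext w).out (Fin.natAdd m 0) x = x := by simp [ext]
    have h2 : (A.ext w).next (Fin.natAdd m 0) x = Fin.natAdd m 0 := by simp [ext]
    rw [act, h1, h2, ih]

theorem ext_old_act (v : List (Fin (n + (l + 1)))) : ∀ q : Fin m,
    (A.ext w).act (Fin.castAdd 2 q) v = liftH (l + 1) (A.perm q) v := by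
  induction v with
  | nil => intro q; rfl
  | cons x v ih =>
    intro q
    rcases fin_dec n (l + 1) x with ⟨a, rfl⟩ | ⟨i, rfl⟩
    · have h1 : (A.ext w).out (Fin.castAdd 2 q) (Fin.castAdd (l + 1) a) =
        Fin.castAdd (l + 1) (A.out q a) := by simp [ext]
      have h2 : (A.ext w).next (Fin.castAdd 2 q) (Fin.castAdd (l + 1) a) =
        Fin.castAdd 2 (A.next q a) := by simp [ext]
      rw [act, h1, h2, ih, liftH_apply, liftH_apply, split_old]
      rfl
    · have h1 : (A.ext w).out (Fin.castAdd 2 q) (Fin.natAdd n i) = Fin.natAdd n i := by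
        simp [ext]
      have h2 : (A.ext w).next (Fin.castAdd 2 q) (Fin.natAdd n i) = Fin.natAdd m 0 := by
        simp [ext]
      rw [act, h1, h2, ext_one_act, liftH_apply, split_new]
      rfl

theorem ext_new_old (x : Fin n) (v : List (Fin (n + (l + 1)))) :
    (A.ext w).act (Fin.natAdd m 1) (Fin.castAdd (l + 1) x :: v) = Fin.castAdd (l + 1) x :: v := by
  have h1 : (A.ext w).out (Fin.natAdd m 1) (Fin.castAdd (l + 1) x) = Fin.castAdd (l + 1) x := by
    simp [ext]
  have h2 : (A.ext w).next (Fin.natAdd m 1) (Fin.castAdd (l + 1) x) = Fin.natAdd m 0 := by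
    simp [ext]
  rw [act, h1, h2, ext_one_act]

theorem ext_new_new (i : Fin (l + 1)) (v : List (Fin (n + (l + 1)))) :
    (A.ext w).act (Fin.natAdd m 1) (Fin.natAdd n i :: v) =
      Fin.natAdd n (i + 1) :: liftH (l + 1) (A.perm (w i)) v := by
  have h1 : (A.ext w).out (Fin.natAdd m 1) (Fin.natAdd n i) = Fin.natAdd n (i + 1) := by
    simp [ext]
  have h2 : (A.ext w).next (Fin.natAdd m 1) (Fin.natAdd n i) = Fin.castAdd 2 (w i) := by
    simp [ext]
  rw [act, h1, h2, ext_old_act]

/-- The new permutation. -/
noncomputable def newP : Equiv.Perm (List (Fin (n + (l + 1)))) := (A.ext w).perm (Fin.natAdd m 1)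

theorem newP_nil : A.newP w [] = [] := rfl
theorem newP_old (x : Fin n) (v : List (Fin (n + (l + 1)))) :
    A.newP w (Fin.castAdd (l + 1) x :: v) = Fin.castAdd (l + 1) x :: v := ext_new_old A w x v
theorem newP_new (i : Fin (l + 1)) (v : List (Fin (n + (l + 1)))) :
    A.newP w (Fin.natAdd n i :: v) =
      Fin.natAdd n (i + 1) :: liftH (l + 1) (A.perm (w i)) v := ext_new_new A w i v

theorem newP_fix {v : List (Fin (n + (l + 1)))} (hv : (split (l + 1) v).1 ≠ []) :
    A.newP w v = v := by
  cases v with
  | nil => rfl
  | cons x v =>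
    rcases fin_dec n (l + 1) x with ⟨a, rfl⟩ | ⟨i, rfl⟩
    · exact newP_old A w a v
    · rw [split_new] at hv
      exact absurd rfl hv

theorem newP_zpow_fix {v : List (Fin (n + (l + 1)))} (hv : (split (l + 1) v).1 ≠ []) (k : ℤ) :
    (A.newP w ^ k) v = v :=
  Equiv.Perm.zpow_apply_eq_self_of_apply_eq_self (newP_fix A w hv) k

theorem newP_split {v : List (Fin (n + (l + 1)))} (hv : (split (l + 1) v).1 = []) :
    (split (l + 1) (A.newP w v)).1 = [] := by
  cases v with
  | nil => rfl
  | cons x v =>
    rcases fin_dec n (l + 1) x with ⟨a, rfl⟩ | ⟨i, rfl⟩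
    · rw [split_old] at hv
      simp at hv
    · rw [newP_new, split_new]

theorem group_nil {f : Equiv.Perm (List (Fin n))} (hf : f ∈ A.group) : f [] = [] := by
  unfold group at hf
  induction hf using Subgroup.closure_induction with
  | mem x hx => obtain ⟨q, rfl⟩ := hx; rfl
  | one => rfl
  | mul x y _ _ hx hy => show x (y []) = []; rw [hy, hx]
  | inv x _ hx => rw [Equiv.Perm.inv_eq_iff_eq, hx]

theorem newP_commute {f : Equiv.Perm (List (Fin n))} (hf : f [] = []) :
    Commute (liftH (l + 1) f) (A.newP w) := by
  show liftH (l + 1) f * A.newP w = A.newP w * liftH (l + 1) f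
  ext1 v
  show liftH (l + 1) f (A.newP w v) = A.newP w (liftH (l + 1) f v)
  by_cases hv : (split (l + 1) v).1 = []
  · rw [liftH_fix hf hv, liftH_fix hf (newP_split A w hv)]
  · rw [newP_fix A w hv, newP_fix A w]
    have := split_liftP (l + 1) f v
    have h2 : (split (l + 1) (liftH (l + 1) f v)).1 = f (split (l + 1) v).1 := by
      show (split (l + 1) (liftP (l + 1) f v)).1 = _
      rw [this]
    rw [h2]
    intro h3
    apply hv
    rw [← hf] at h3
    exact f.injective h3

theorem ext_group : (A.ext w).group =
    (A.group.map (liftH (l + 1))) ⊔ Subgroup.zpowers (A.newP w) := by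
  apply le_antisymm
  · unfold group
    rw [Subgroup.closure_le]
    rintro _ ⟨q, rfl⟩
    rcases fin_dec m 2 q with ⟨q, rfl⟩ | ⟨b, rfl⟩
    · apply Subgroup.mem_sup_left
      refine ⟨A.perm q, Subgroup.subset_closure ⟨q, rfl⟩, ?_⟩
      ext1 v
      exact (ext_old_act A w v q).symm
    · by_cases hb : b = 0
      · have : (A.ext w).perm (Fin.natAdd m b) = 1 := by
          ext1 v
          rw [hb]
          exact ext_one_act A w v
        rw [this]
        exact one_mem _
      · have hb1 : b = 1 := by omega
        apply Subgroup.mem_sup_right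
        rw [hb1]
        exact Subgroup.mem_zpowers _
  · rw [sup_le_iff]
    constructor
    · unfold group
      rw [MonoidHom.map_closure, Subgroup.closure_le]
      rintro _ ⟨_, ⟨q, rfl⟩, rfl⟩
      apply Subgroup.subset_closure
      refine ⟨Fin.castAdd 2 q, ?_⟩
      ext1 v
      exact ext_old_act A w v q
    · rw [Subgroup.zpowers_le]
      exact Subgroup.subset_closure ⟨_, rfl⟩

/-- The structure of the group of the extension. -/
theorem ext_iso {P : Type} [Group P] (κ : P →* Equiv.Perm (List (Fin (n + (l + 1)))))
    (hκ : Function.Injective κ) (hr : κ.range = Subgroup.zpowers (A.newP w)) :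
    Nonempty (A.group × P ≃* (A.ext w).group) := by
  have hcomm : ∀ (f : A.group) (z : P),
      Commute (((liftH (l + 1)).comp A.group.subtype) f) (κ z) := by
    intro f z
    have hz : κ z ∈ Subgroup.zpowers (A.newP w) := by rw [← hr]; exact ⟨z, rfl⟩
    obtain ⟨k, hk⟩ := Subgroup.mem_zpowers_iff.mp hz
    rw [← hk]
    exact (newP_commute A w (group_nil A f.2)).zpow_right k
  let Φ := MonoidHom.noncommCoprod ((liftH (l + 1)).comp A.group.subtype) κ hcomm
  have hinj : Function.Injective Φ := by
    rw [injective_iff_map_eq_one]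
    rintro ⟨f, z⟩ h
    have hz : κ z ∈ Subgroup.zpowers (A.newP w) := by rw [← hr]; exact ⟨z, rfl⟩
    obtain ⟨k, hk⟩ := Subgroup.mem_zpowers_iff.mp hz
    have h1 : liftH (l + 1) f.1 * κ z = 1 := h
    have hf : f.1 = 1 := by
      ext1 u
      by_cases hu : u = []
      · rw [hu]; exact group_nil A f.2
      · have h2 : split (l + 1) (u.map (Fin.castAdd (l + 1))) = (u, []) := by
          have := split_mk (l + 1) u [] rfl
          simpa using this
        have h3 := congrArg (fun e : Equiv.Perm (List (Fin (n + (l + 1)))) =>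
          split (l + 1) (e (u.map (Fin.castAdd (l + 1))))) h1
        simp only [Equiv.Perm.mul_apply, Equiv.Perm.one_apply] at h3
        rw [← hk, newP_zpow_fix A w (by rw [h2]; exact hu), h2] at h3
        have h4 := split_liftP (l + 1) f.1 (u.map (Fin.castAdd (l + 1)))
        rw [h2] at h4
        have h5 : split (l + 1) (liftH (l + 1) f.1 (u.map (Fin.castAdd (l + 1)))) = (f.1 u, []) := h4
        rw [h5] at h3
        exact (Prod.ext_iff.mp h3).1
    have hz1 : κ z = 1 := by
      rw [hf, map_one, one_mul] at h1
      exact h1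
    have : z = 1 := hκ (by rw [hz1, map_one])
    rw [this]
    ext1
    · exact Subtype.ext hf
    · rfl
  have hrange : Φ.range = (A.ext w).group := by
    have h1 : Φ.range = ((liftH (l + 1)).comp A.group.subtype).range ⊔ κ.range :=
      MonoidHom.noncommCoprod_range _ _ _
    rw [ext_group, h1, hr, MonoidHom.range_comp, Subgroup.range_subtype]
  exact ⟨(MonoidHom.ofInjective hinj).trans (MulEquiv.subgroupCongr hrange)⟩

/-! ### The order of the new permutation -/

/-- The product of the states of the word; the first state acts first. -/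
noncomputable def wprod : List (Fin m) → Equiv.Perm (List (Fin n))
  | [] => 1
  | q :: v => wprod v * A.perm q

theorem newP_pow (i : ℕ) (hi : i ≤ l) (v : List (Fin (n + (l + 1)))) :
    (A.newP w ^ (i + 1)) (Fin.natAdd n 0 :: v) =
      Fin.natAdd n (Fin.ofNat (l + 1) (i + 1)) ::
        liftH (l + 1) (A.wprod ((List.ofFn w).take (i + 1))) v := by
  have wprod_append : ∀ (a b : List (Fin m)), A.wprod (a ++ b) = A.wprod b * A.wprod a := by
    intro a b
    induction a with
    | nil => simp [wprod]
    | cons q a ih => rw [List.cons_append, wprod, ih, wprod, mul_assoc]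
  induction i with
  | zero =>
    rw [zero_add, pow_one, newP_new]
    simp only [List.ofFn_succ, List.take_succ_cons, List.take_zero, wprod, one_mul]
    congr 2
    ext
    simp [Fin.ofNat]
  | succ i ih =>
    rw [pow_succ', Equiv.Perm.mul_apply, ih (by omega), newP_new]
    have h1 : (List.ofFn w).take (i + 1 + 1) = (List.ofFn w).take (i + 1) ++
        [w (Fin.ofNat (l + 1) (i + 1))] := by
      rw [List.take_add_one]
      congr 1
      have h2 : i + 1 < (List.ofFn w).length := by simp; omega
      rw [List.getElem?_eq_getElem h2]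
      simp only [List.getElem_ofFn, Option.toList_some]
      congr 2
      ext
      simp [Fin.ofNat]
      rw [Nat.mod_eq_of_lt (by omega)]
    rw [h1, wprod_append]
    simp only [wprod, one_mul, map_mul, Equiv.Perm.mul_apply]
    congr 2
    ext
    simp [Fin.ofNat, Fin.val_add]

theorem newP_full (v : List (Fin (n + (l + 1)))) :
    (A.newP w ^ (l + 1)) (Fin.natAdd n 0 :: v) =
      Fin.natAdd n 0 :: liftH (l + 1) (A.wprod (List.ofFn w)) v := by
  rw [newP_pow A w l le_rfl]
  have h1 : (List.ofFn w).take (l + 1) = List.ofFn w := by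
    apply List.take_of_length_le
    simp
  rw [h1]
  congr 2
  ext
  simp [Fin.ofNat]

theorem newP_full_pow (K : ℕ) : ∀ (v : List (Fin (n + (l + 1)))),
    (A.newP w ^ ((l + 1) * K)) (Fin.natAdd n 0 :: v) =
      Fin.natAdd n 0 :: liftH (l + 1) (A.wprod (List.ofFn w) ^ K) v := by
  induction K with
  | zero => intro v; simp
  | succ K ih =>
    intro v
    rw [mul_add, mul_one, pow_add, Equiv.Perm.mul_apply, newP_full, ih, pow_succ, map_mul,
      Equiv.Perm.mul_apply]

theorem newP_order : IsOfFinOrder (A.newP w) ↔ IsOfFinOrder (A.wprod (List.ofFn w)) := by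
  rw [isOfFinOrder_iff_pow_eq_one, isOfFinOrder_iff_pow_eq_one]
  constructor
  · rintro ⟨K, hK, h⟩
    refine ⟨K, hK, ?_⟩
    apply liftH_injective (l + 1)
    rw [map_one]
    ext1 v
    have h1 := newP_full_pow A w K v
    rw [mul_comm, pow_mul, h, one_pow] at h1
    simp only [Equiv.Perm.one_apply, List.cons.injEq, true_and] at h1
    exact h1.symm
  · rintro ⟨K, hK, h⟩
    refine ⟨(l + 1) * K, by positivity, ?_⟩
    have h0 : ∀ v, (A.newP w ^ ((l + 1) * K)) (Fin.natAdd n 0 :: v) = Fin.natAdd n 0 :: v := by
      intro v
      rw [newP_full_pow, h, map_one]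
      rfl
    have h1 : ∀ (i : ℕ) (hi : i < l + 1) (v : List (Fin (n + (l + 1)))),
        (A.newP w ^ ((l + 1) * K)) (Fin.natAdd n ⟨i, hi⟩ :: v) = Fin.natAdd n ⟨i, hi⟩ :: v := by
      intro i
      induction i with
      | zero => intro _ v; exact h0 v
      | succ i ih =>
        intro hi v
        obtain ⟨v', hv'⟩ := (liftH (l + 1) (A.perm (w ⟨i, by omega⟩))).surjective v
        have h2 : Fin.natAdd n ⟨i + 1, hi⟩ :: v =
            A.newP w (Fin.natAdd n ⟨i, by omega⟩ :: v') := by
          rw [newP_new, hv']
          congr 2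
          ext
          simp [Fin.val_add]
          rw [Nat.mod_eq_of_lt (by omega)]
        rw [h2, ← Equiv.Perm.mul_apply, ← pow_succ, pow_succ', Equiv.Perm.mul_apply, ih]
    ext1 v
    show _ = v
    cases v with
    | nil => exact Equiv.Perm.pow_apply_eq_self_of_apply_eq_self rfl _
    | cons x v =>
      rcases fin_dec n (l + 1) x with ⟨a, rfl⟩ | ⟨i, rfl⟩
      · exact Equiv.Perm.pow_apply_eq_self_of_apply_eq_self (newP_old A w a v) _
      · exact h1 i.val i.isLt v

end Automaton

end Pool.Agent.H.MP_56d946_al
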