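import Pool.Agent.H.MP_56d946_al.Order
import Pool.Agent.H.MP_56d946_al.Ext

set_option autoImplicit false
set_option linter.unusedSectionVars false

namespace Pool.Agent.H.MP_56d946_al

open RM.Lt RM.St

variable {ι : Type} [Fintype ι] (m : RM ι)

instance RM.finite_V : Finite m.V := by
  have : NeZero (2 * m.j + 1) := ⟨by omega⟩
  unfold RM.V
  infer_instance

instance RM.finite_Lt : Finite m.Lt := by
  let f : m.Lt → (m.V × Bool) ⊕ (m.V × Fin m.j × Bool) ⊕ (m.V × m.V) := fun x =>
    match x with
    | rd c b => Sum.inl (c, b)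
    | pr r i b => Sum.inr (Sum.inl (r, i, b))
    | fi r c => Sum.inr (Sum.inr (r, c))
  apply Finite.of_injective f
  intro x y h
  cases x <;> cases y <;> simp_all [f]

/-- Bounded states. -/
def Bd (b : ℕ) : RM.St ι → Prop
  | tr N => ∀ k, (N k).natAbs ≤ b
  | _ => True

theorem Bd_finite (b : ℕ) : Finite {q : RM.St ι // Bd b q} := by
  have h1 : {N : ι → ℤ | ∀ k, (N k).natAbs ≤ b}.Finite := by
    apply Set.Finite.subset (Set.Finite.pi' (fun _ : ι => Set.finite_Icc (-(b : ℤ)) b))
    intro N hN k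
    have := hN k
    simp only [Set.mem_Icc]
    omega
  have h2 : {q : RM.St ι | Bd b q} ⊆
      {one, inv, sw} ∪ RM.St.tr '' {N : ι → ℤ | ∀ k, (N k).natAbs ≤ b} := by
    intro q hq
    cases q with
    | one => left; simp
    | inv => left; simp
    | sw => left; simp
    | tr N => right; exact ⟨N, hq, rfl⟩
  exact ((Set.Finite.union (by simp) (h1.image _)).subset h2).to_subtype

theorem Bd_nxt {b : ℕ} (hb : ∀ r k, (m.cst r k).natAbs ≤ b) {q : RM.St ι} (hq : Bd b q)
    (x : m.Lt) : Bd b (m.nxt q x) := by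
  cases q with
  | one => trivial
  | inv => cases x <;> trivial
  | sw =>
    show Bd b (m.swN x)
    cases x with
    | rd c b' =>
      cases b'
      · simp only [RM.swN]
        split
        · trivial
        · exact fun k => hb _ k
      · simp only [RM.swN]
        split <;> trivial
    | pr r i b' =>
      cases b'
      · trivial
      · simp only [RM.swN]
        split
        · trivial
        · split
          · intro k
            rw [Pi.neg_apply, Int.natAbs_neg]
            exact hb _ k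
          · trivial
    | fi r c => trivial
  | tr N =>
    show ∀ k, (m.sec N x k).natAbs ≤ b
    intro k
    have hN : (N k).natAbs ≤ b := hq k
    cases x with
    | rd c b' => simp [RM.sec]
    | pr r i b' =>
      cases b'
      · simp only [RM.sec, Pi.neg_apply, Int.natAbs_neg, RM.proj]
        split
        · exact hN
        · simp
      · simp only [RM.sec, RM.proj]
        split
        · exact hN
        · simp
    | fi r c =>
      simp only [RM.sec, RM.fsec]
      cases m.op r k
      · exact hN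
      · exact (carry_abs _ _).trans hN
      · exact hN
      · simp

theorem out_bij (q : RM.St ι) : Function.Bijective (m.out q) := by
  rw [← Finite.injective_iff_bijective]
  cases q with
  | one => exact fun x y h => h
  | inv =>
    have h : ∀ x, m.out inv (m.out inv x) = x := by
      intro x
      have := act_inv_inv (m := m) [x]
      rw [act_cons, act_cons] at this
      exact (List.cons.inj this).1
    exact Function.LeftInverse.injective h
  | sw =>
    have h : ∀ x, m.out sw (m.out sw x) = x := by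
      intro x
      have := act_sw_sw (m := m) [x]
      rw [act_cons, act_cons] at this
      exact (List.cons.inj this).1
    exact Function.LeftInverse.injective h
  | tr N =>
    have h : ∀ x, m.out (tr (-N)) (m.out (tr N) x) = x := by
      intro x
      rw [out_tr_add, neg_add_cancel, out_tr_zero]
    exact Function.LeftInverse.injective h

/-- The finite automaton of a machine, for given enumerations of states and letters. -/
def finAut {b p n : ℕ} (hb : ∀ r k, (m.cst r k).natAbs ≤ b)
    (eQ : {q : RM.St ι // Bd b q} ≃ Fin p) (eX : m.Lt ≃ Fin n) : Automaton p n where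
  next s x := eQ ⟨m.nxt (eQ.symm s).1 (eX.symm x), Bd_nxt m hb (eQ.symm s).2 _⟩
  out s x := eX (m.out (eQ.symm s).1 (eX.symm x))
  bij _ := eX.bijective.comp ((out_bij m _).comp eX.symm.bijective)

variable {m}

theorem finAut_act {b p n : ℕ} (hb : ∀ r k, (m.cst r k).natAbs ≤ b)
    (eQ : {q : RM.St ι // Bd b q} ≃ Fin p) (eX : m.Lt ≃ Fin n) (w : List m.Lt) :
    ∀ q : {q : RM.St ι // Bd b q}, (finAut m hb eQ eX).act (eQ q) (w.map eX) =
      (m.act q.1 w).map eX := by
  induction w with
  | nil => intro q; simp [Automaton.act]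
  | cons x w ih =>
    intro q
    rw [List.map_cons, Automaton.act, act_cons, List.map_cons]
    have h1 : (finAut m hb eQ eX).out (eQ q) (eX x) = eX (m.out q.1 x) := by
      simp [finAut]
    have h2 : (finAut m hb eQ eX).next (eQ q) (eX x) = eQ ⟨m.nxt q.1 x, Bd_nxt m hb q.2 _⟩ := by
      simp [finAut]
    rw [h1, h2, ih]

/-- Words over the two alphabets. -/
def wordEquiv {n : ℕ} (eX : m.Lt ≃ Fin n) : List m.Lt ≃ List (Fin n) where
  toFun w := w.map eX
  invFun w := w.map eX.symm
  left_inv w := by simp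
  right_inv w := by simp

theorem finAut_perm {b p n : ℕ} (hb : ∀ r k, (m.cst r k).natAbs ≤ b)
    (eQ : {q : RM.St ι // Bd b q} ≃ Fin p) (eX : m.Lt ≃ Fin n)
    (q : {q : RM.St ι // Bd b q}) (f : Equiv.Perm (List m.Lt)) (hf : ∀ w, f w = m.act q.1 w) :
    (finAut m hb eQ eX).perm (eQ q) = (wordEquiv eX).permCongrHom f := by
  ext1 w
  obtain ⟨w, rfl⟩ := (wordEquiv eX).surjective w
  show (finAut m hb eQ eX).act (eQ q) (w.map eX) = wordEquiv eX (f ((wordEquiv eX).symm (wordEquiv eX w)))
  rw [finAut_act, Equiv.symm_apply_apply, hf]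
  rfl

theorem wprod_append {p n : ℕ} (A : Automaton p n) (a b : List (Fin p)) :
    A.wprod (a ++ b) = A.wprod b * A.wprod a := by
  induction a with
  | nil => simp [Automaton.wprod]
  | cons q a ih => rw [List.cons_append, Automaton.wprod, ih, Automaton.wprod, mul_assoc]

theorem wprod_replicate {p n : ℕ} (A : Automaton p n) (k : ℕ) (q : Fin p) :
    A.wprod (List.replicate k q) = A.perm q ^ k := by
  induction k with
  | zero => rfl
  | succ k ih => rw [List.replicate_succ, Automaton.wprod, ih, pow_succ]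

theorem T_nsmul (e : ι → ℤ) (a : ℕ) : m.T (a • e) = m.T e ^ a := by
  induction a with
  | zero => rw [zero_smul, T_zero, pow_zero]
  | succ a ih => rw [add_smul, one_smul, T_add, ih, pow_succ]

/-- The existence of the finite automaton and of the words. -/
theorem exists_aut (m : RM ι) (c0 e1 : ι → ℤ) : ∃ (p n : ℕ) (A : Automaton p n)
    (q1 q2 : Fin p) (q0 : Fin p) (L0 L1 : List (Fin p)), L1 ≠ [] ∧ ∀ a : ℕ,
    (IsOfFinOrder (A.wprod (q0 :: (List.replicate a q1 ++ L0 ++ List.replicate a q2 ++ L1))) ↔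
      Halts m.step (c0 + a • e1)) := by
  -- the bound
  obtain ⟨b, hb, hc0, he1⟩ : ∃ b : ℕ, (∀ r k, (m.cst r k).natAbs ≤ b) ∧
      (∀ k, (c0 k).natAbs ≤ b) ∧ (∀ k, (e1 k).natAbs ≤ b) := by
    have hV : Finite m.V := RM.finite_V m
    have := Fintype.ofFinite m.V
    refine ⟨∑ r : m.V, ∑ k : ι, (m.cst r k).natAbs + ∑ k : ι, (c0 k).natAbs +
      ∑ k : ι, (e1 k).natAbs, ?_, ?_, ?_⟩
    · intro r k
      have h1 : (m.cst r k).natAbs ≤ ∑ k : ι, (m.cst r k).natAbs :=
        Finset.single_le_sum (f := fun k => (m.cst r k).natAbs) (fun _ _ => Nat.zero_le _)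
          (Finset.mem_univ k)
      have h2 : ∑ k : ι, (m.cst r k).natAbs ≤ ∑ r : m.V, ∑ k : ι, (m.cst r k).natAbs :=
        Finset.single_le_sum (f := fun r => ∑ k : ι, (m.cst r k).natAbs)
          (fun _ _ => Nat.zero_le _) (Finset.mem_univ r)
      omega
    · intro k
      have h1 : (c0 k).natAbs ≤ ∑ k : ι, (c0 k).natAbs :=
        Finset.single_le_sum (f := fun k => (c0 k).natAbs) (fun _ _ => Nat.zero_le _)
          (Finset.mem_univ k)
      omega
    · intro k
      have h1 : (e1 k).natAbs ≤ ∑ k : ι, (e1 k).natAbs :=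
        Finset.single_le_sum (f := fun k => (e1 k).natAbs) (fun _ _ => Nat.zero_le _)
          (Finset.mem_univ k)
      omega
  have hQ := Bd_finite (ι := ι) b
  have hX := RM.finite_Lt m
  obtain ⟨p, ⟨eQ⟩⟩ := Finite.exists_equiv_fin {q : RM.St ι // Bd b q}
  obtain ⟨n, ⟨eX⟩⟩ := Finite.exists_equiv_fin m.Lt
  set A := finAut m hb eQ eX with hA
  have hneg : ∀ c : ι → ℤ, (∀ k, (c k).natAbs ≤ b) → ∀ k, ((-c) k).natAbs ≤ b := by
    intro c hc k
    rw [Pi.neg_apply, Int.natAbs_neg]; exact hc k
  have hT : ∀ (c : ι → ℤ) (hc : ∀ k, (c k).natAbs ≤ b),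
      A.perm (eQ ⟨tr c, hc⟩) = (wordEquiv eX).permCongrHom (m.T c) := by
    intro c hc
    exact finAut_perm hb eQ eX _ _ (fun w => rfl)
  have hR : A.perm (eQ ⟨inv, trivial⟩) = (wordEquiv eX).permCongrHom m.R :=
    finAut_perm hb eQ eX _ _ (fun w => rfl)
  have hS : A.perm (eQ ⟨sw, trivial⟩) = (wordEquiv eX).permCongrHom m.S :=
    finAut_perm hb eQ eX _ _ (fun w => rfl)
  have h1 : A.perm (eQ ⟨one, trivial⟩) = 1 := by
    rw [← map_one (wordEquiv eX).permCongrHom]
    exact finAut_perm hb eQ eX _ _ (fun w => (act_one w).symm)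
  refine ⟨p, n, A, eQ ⟨tr e1, he1⟩, eQ ⟨tr (-e1), hneg _ he1⟩, eQ ⟨one, trivial⟩,
    [eQ ⟨tr c0, hc0⟩, eQ ⟨inv, trivial⟩, eQ ⟨tr (-c0), hneg _ hc0⟩], [eQ ⟨sw, trivial⟩], by simp, ?_⟩
  intro a
  have key : A.wprod (eQ ⟨one, trivial⟩ :: (List.replicate a (eQ ⟨tr e1, he1⟩) ++
      [eQ ⟨tr c0, hc0⟩, eQ ⟨inv, trivial⟩, eQ ⟨tr (-c0), hneg _ hc0⟩] ++
      List.replicate a (eQ ⟨tr (-e1), hneg _ he1⟩) ++ [eQ ⟨sw, trivial⟩])) =
      (wordEquiv eX).permCongrHom (m.g (c0 + a • e1)) := by
    rw [Automaton.wprod, wprod_append, wprod_append, wprod_append, wprod_replicate,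
      wprod_replicate]
    simp only [Automaton.wprod, hT, hR, hS, h1, mul_one, one_mul, ← map_mul, ← map_pow]
    congr 1
    rw [RM.g, RM.rho]
    have e1' : -(c0 + a • e1) = a • (-e1) + (-c0) := by
      rw [neg_add_rev, smul_neg]
    rw [e1', T_add, T_add, T_nsmul, T_nsmul]
    simp only [mul_assoc]
  rw [key, ← order_iff]
  exact Function.Injective.isOfFinOrder_iff (f := (wordEquiv eX).permCongrHom.toMonoidHom)
    (wordEquiv eX).permCongrHom.injective

end Pool.Agent.H.MP_56d946_al
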