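import Mathlib

set_option autoImplicit false

namespace Pool.Agent.H.MP_56d946_al

/-! ### Residue machines -/

/-- The operations on a coordinate. -/
inductive Op
  | keep | pop | push | kill
  deriving DecidableEq

/-- A machine acting on integer vectors; the operation depends on the residues. -/
structure RM (ι : Type) where
  /-- half of the modulus -/
  j : ℕ
  /-- the modulus is at least three -/
  hj : 1 ≤ j
  /-- halting residues -/
  halt : (ι → ZMod (2 * j + 1)) → Bool
  /-- operations -/
  op : (ι → ZMod (2 * j + 1)) → ι → Op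
  /-- constants -/
  cst : (ι → ZMod (2 * j + 1)) → ι → ℤ

/-- The balanced representative. -/
def rep {j : ℕ} (c : ZMod (2 * j + 1)) : ℤ := c.valMinAbs

/-- Carry. -/
def carry {j : ℕ} (N : ℤ) (c : ZMod (2 * j + 1)) : ℤ :=
  (N + rep c - rep (c + (N : ZMod (2 * j + 1)))) / (2 * j + 1 : ℤ)

section rep
variable {j : ℕ}

theorem rep_cast (c : ZMod (2 * j + 1)) : ((rep c : ℤ) : ZMod (2 * j + 1)) = c :=
  ZMod.coe_valMinAbs c

theorem rep_zero : rep (0 : ZMod (2 * j + 1)) = 0 := ZMod.valMinAbs_zero _

theorem rep_neg (c : ZMod (2 * j + 1)) : rep (-c) = - rep c := by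
  apply ZMod.valMinAbs_neg_of_ne_half
  omega

theorem rep_abs (c : ZMod (2 * j + 1)) : (rep c).natAbs ≤ j := by
  have := ZMod.natAbs_valMinAbs_le c
  unfold rep
  omega

theorem rep_nat {a : ℕ} (h : a ≤ j) : rep ((a : ℕ) : ZMod (2 * j + 1)) = a := by
  apply ZMod.valMinAbs_natCast_of_le_half
  omega

theorem carry_spec (N : ℤ) (c : ZMod (2 * j + 1)) :
    (2 * j + 1 : ℤ) * carry N c = N + rep c - rep (c + (N : ZMod (2 * j + 1))) := by
  unfold carry
  apply Int.mul_ediv_cancel'
  have h : (((N + rep c - rep (c + (N : ZMod (2 * j + 1))) : ℤ)) : ZMod (2 * j + 1)) = 0 := by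
    push_cast
    rw [rep_cast, rep_cast]; ring
  have := (ZMod.intCast_zmod_eq_zero_iff_dvd _ (2 * j + 1)).mp h
  exact_mod_cast this

theorem q_pos : (0 : ℤ) < 2 * j + 1 := by positivity

theorem carry_add (N M : ℤ) (c : ZMod (2 * j + 1)) :
    carry N (c + (M : ZMod (2 * j + 1))) + carry M c = carry (N + M) c := by
  apply mul_left_cancel₀ (q_pos (j := j)).ne'
  rw [mul_add, carry_spec, carry_spec, carry_spec]
  push_cast
  rw [show c + (M : ZMod (2 * j + 1)) + (N : ZMod (2 * j + 1)) = c + (N + M) by ring]
  ring

theorem carry_zero (c : ZMod (2 * j + 1)) : carry 0 c = 0 := by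
  apply mul_left_cancel₀ (q_pos (j := j)).ne'
  rw [carry_spec]; simp

theorem carry_neg (N : ℤ) (c : ZMod (2 * j + 1)) : carry (-N) (-c) = - carry N c := by
  apply mul_left_cancel₀ (q_pos (j := j)).ne'
  rw [mul_neg, carry_spec, carry_spec, rep_neg]
  push_cast
  rw [show -c + -(N : ZMod (2 * j + 1)) = -(c + N) by ring, rep_neg]
  ring

theorem carry_abs (N : ℤ) (c : ZMod (2 * j + 1)) : (carry N c).natAbs ≤ N.natAbs := by
  rcases eq_or_ne N 0 with rfl | hN
  · rw [carry_zero]
  · have h1 := carry_spec N c
    have h2 := rep_abs c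
    have h3 := rep_abs (c + (N : ZMod (2 * j + 1)))
    by_contra hlt
    push Not at hlt
    have h4 : ((2 * j + 1 : ℤ) * carry N c).natAbs ≤ N.natAbs + 2 * j := by
      rw [h1]; omega
    rw [Int.natAbs_mul] at h4
    have h5 : (2 * j + 1 : ℤ).natAbs = 2 * j + 1 := by omega
    rw [h5] at h4
    have h6 : 1 ≤ N.natAbs := Int.natAbs_pos.mpr hN
    nlinarith

theorem carry_self (N : ℤ) :
    carry N (-(N : ZMod (2 * j + 1))) = (N - rep (N : ZMod (2 * j + 1))) / (2 * j + 1 : ℤ) := by
  unfold carry
  rw [rep_neg]
  simp [rep_zero, sub_eq_add_neg]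

end rep

set_option linter.unusedSectionVars false

variable {ι : Type} [Fintype ι] (m : RM ι)

/-- The residues. -/
abbrev RM.V := ι → ZMod (2 * m.j + 1)

/-- Reduction of a vector. -/
def RM.red (N : ι → ℤ) : m.V := fun k => (N k : ZMod (2 * m.j + 1))

/-- The letters. -/
inductive RM.Lt
  | rd (c : m.V) (b : Bool)
  | pr (r : m.V) (i : Fin m.j) (b : Bool)
  | fi (r c : m.V)

/-- The states. -/
inductive RM.St (ι : Type)
  | one | inv | sw | tr (N : ι → ℤ)

open RM.Lt RM.St

/-- The projection to the coordinates where something is pushed. -/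
def RM.proj (r : m.V) (N : ι → ℤ) : ι → ℤ := fun k => if m.op r k = Op.push then N k else 0

/-- The section of a translation at the last row. -/
def RM.fsec (r : m.V) (N : ι → ℤ) (c : m.V) : ι → ℤ := fun k =>
  match m.op r k with
  | Op.keep => N k
  | Op.push => N k
  | Op.pop => carry (N k) (c k)
  | Op.kill => 0

/-- The sections of a translation. -/
def RM.sec (N : ι → ℤ) : m.Lt → (ι → ℤ)
  | rd _ _ => 0
  | pr r _ true => m.proj r N
  | pr r _ false => - m.proj r N
  | fi r c => m.fsec r N c

/-- Multiplication by one half. -/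
def RM.half (c : m.V) : m.V := fun k => ((m.j + 1 : ℕ) : ZMod (2 * m.j + 1)) * c k

/-- The section of the involution `s`. -/
def RM.swN : m.Lt → RM.St ι
  | rd c true => if c = 0 then sw else one
  | rd c false => if m.halt (m.half c) then one else tr (m.cst (m.half c))
  | pr r i true => if m.halt r then one else if i.val = 0 then tr (- m.cst r) else one
  | pr _ _ false => one
  | fi _ _ => one

/-- The action of the involution `s` on letters. -/
def RM.swO : m.Lt → m.Lt
  | rd c true => rd c true
  | rd c false => if m.halt (m.half c) then rd c false else pr (m.half c) ⟨0, m.hj⟩ true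
  | pr r i true => if m.halt r then pr r i true else
      if i.val = 0 then rd (r + r) false else pr r ⟨i.val - 1, by omega⟩ false
  | pr r i false => if m.halt r then pr r i false else
      if h : i.val + 1 < m.j then pr r ⟨i.val + 1, h⟩ true else fi r (-r)
  | fi r c => if m.halt r then fi r c else
      if c = -r then pr r ⟨m.j - 1, by have := m.hj; omega⟩ false else fi r c

/-- The transition function. -/
def RM.nxt : RM.St ι → m.Lt → RM.St ι
  | one, _ => one
  | inv, fi _ _ => inv
  | inv, _ => one
  | sw, x => m.swN x
  | tr N, x => tr (m.sec N x)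

/-- The output function. -/
def RM.out : RM.St ι → m.Lt → m.Lt
  | one, x => x
  | inv, rd c b => rd c (!b)
  | inv, pr r i b => pr r i (!b)
  | inv, fi r c => fi r (-c)
  | sw, x => m.swO x
  | tr N, rd c true => rd (c + m.red N) true
  | tr N, rd c false => rd (c - m.red N) false
  | tr _, pr r i b => pr r i b
  | tr N, fi r c => fi r (c + m.red N)

/-- The action of states on words. -/
def RM.act : RM.St ι → List m.Lt → List m.Lt
  | _, [] => []
  | q, x :: w => m.out q x :: RM.act (m.nxt q x) w

variable {m}

@[simp] theorem act_nil (q : RM.St ι) : m.act q [] = [] := by cases q <;> rfl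
@[simp] theorem act_cons (q : RM.St ι) (x : m.Lt) (w : List m.Lt) :
    m.act q (x :: w) = m.out q x :: m.act (m.nxt q x) w := by cases q <;> rfl

@[simp] theorem act_one (w : List m.Lt) : m.act one w = w := by
  induction w with
  | nil => rfl
  | cons x w ih => rw [act_cons]; show x :: m.act one w = _; rw [ih]

theorem red_add (N M : ι → ℤ) : m.red (N + M) = m.red N + m.red M := by
  funext k; simp [RM.red]
theorem red_neg (N : ι → ℤ) : m.red (-N) = - m.red N := by
  funext k; simp [RM.red]
theorem red_zero : m.red (0 : ι → ℤ) = 0 := by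
  funext k; simp [RM.red]

theorem proj_add (r : m.V) (N M : ι → ℤ) : m.proj r (N + M) = m.proj r N + m.proj r M := by
  funext k; simp only [RM.proj, Pi.add_apply]; split <;> simp
theorem proj_neg (r : m.V) (N : ι → ℤ) : m.proj r (-N) = - m.proj r N := by
  funext k; simp only [RM.proj, Pi.neg_apply]; split <;> simp
theorem proj_zero (r : m.V) : m.proj r (0 : ι → ℤ) = 0 := by
  funext k; simp [RM.proj]

theorem fsec_add (r : m.V) (N M : ι → ℤ) (c : m.V) :
    m.fsec r N (c + m.red M) + m.fsec r M c = m.fsec r (N + M) c := by
  funext k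
  simp only [RM.fsec, Pi.add_apply]
  cases m.op r k <;> simp only
  · exact carry_add _ _ _
  · simp
theorem fsec_neg (r : m.V) (N : ι → ℤ) (c : m.V) :
    m.fsec r (-N) (-c) = - m.fsec r N c := by
  funext k
  simp only [RM.fsec, Pi.neg_apply]
  cases m.op r k <;> simp only
  · exact carry_neg _ _
  · simp
theorem fsec_zero (r : m.V) (c : m.V) : m.fsec r 0 c = 0 := by
  funext k
  simp only [RM.fsec, Pi.zero_apply]
  cases m.op r k <;> simp only
  exact carry_zero _

theorem out_tr_add (N M : ι → ℤ) (x : m.Lt) :
    m.out (tr N) (m.out (tr M) x) = m.out (tr (N + M)) x := by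
  cases x with
  | rd c b => cases b <;> simp only [RM.out, red_add] <;> congr 1 <;> abel
  | pr r i b => simp only [RM.out]
  | fi r c => simp only [RM.out, red_add]; congr 1; abel

theorem sec_add (N M : ι → ℤ) (x : m.Lt) :
    m.sec N (m.out (tr M) x) + m.sec M x = m.sec (N + M) x := by
  cases x with
  | rd c b => cases b <;> simp [RM.out, RM.sec]
  | pr r i b =>
    cases b
    · simp only [RM.out, RM.sec, proj_add]; abel
    · simp only [RM.out, RM.sec, proj_add]
  | fi r c => simp only [RM.out, RM.sec]; exact fsec_add _ _ _ _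

theorem act_tr_add (w : List m.Lt) : ∀ N M : ι → ℤ,
    m.act (tr N) (m.act (tr M) w) = m.act (tr (N + M)) w := by
  induction w with
  | nil => intro N M; simp
  | cons x w ih =>
    intro N M
    rw [act_cons, act_cons, act_cons, out_tr_add]
    show _ :: m.act (tr (m.sec N _)) (m.act (tr (m.sec M x)) w) = _ :: m.act (tr (m.sec (N + M) x)) w
    rw [ih, sec_add]

theorem out_tr_zero (x : m.Lt) : m.out (tr 0) x = x := by
  cases x with
  | rd c b => cases b <;> simp [RM.out, red_zero]
  | pr r i b => simp only [RM.out]
  | fi r c => simp [RM.out, red_zero]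

theorem sec_zero (x : m.Lt) : m.sec (0 : ι → ℤ) x = 0 := by
  cases x with
  | rd c b => simp only [RM.sec]
  | pr r i b => cases b <;> simp [RM.sec, proj_zero]
  | fi r c => simp only [RM.sec]; exact fsec_zero _ _

@[simp] theorem act_tr_zero (w : List m.Lt) : m.act (tr 0) w = w := by
  induction w with
  | nil => rfl
  | cons x w ih =>
    rw [act_cons, out_tr_zero]
    show x :: m.act (tr (m.sec 0 x)) w = _
    rw [sec_zero, ih]

theorem act_inv_inv (w : List m.Lt) : m.act inv (m.act inv w) = w := by
  induction w with
  | nil => rfl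
  | cons x w ih =>
    rw [act_cons, act_cons]
    cases x with
    | rd c b =>
      show rd c (!!b) :: m.act one (m.act one w) = _
      simp
    | pr r i b =>
      show pr r i (!!b) :: m.act one (m.act one w) = _
      simp
    | fi r c =>
      show fi r (- -c) :: m.act inv (m.act inv w) = _
      rw [ih, neg_neg]

theorem act_inv_tr (w : List m.Lt) : ∀ N : ι → ℤ,
    m.act inv (m.act (tr N) w) = m.act (tr (-N)) (m.act inv w) := by
  induction w with
  | nil => intro N; simp
  | cons x w ih =>
    intro N
    cases x with
    | rd c b =>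
      cases b
      · show rd (c - m.red N) true :: m.act one (m.act (tr 0) w) =
          rd (c + m.red (-N)) true :: m.act (tr 0) (m.act one w)
        simp [red_neg, sub_eq_add_neg]
      · show rd (c + m.red N) false :: m.act one (m.act (tr 0) w) =
          rd (c - m.red (-N)) false :: m.act (tr 0) (m.act one w)
        simp [red_neg]
    | pr r i b =>
      cases b
      · show pr r i true :: m.act one (m.act (tr (- m.proj r N)) w) =
          pr r i true :: m.act (tr (m.proj r (-N))) (m.act one w)
        simp [proj_neg]
      · show pr r i false :: m.act one (m.act (tr (m.proj r N)) w) =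
          pr r i false :: m.act (tr (- m.proj r (-N))) (m.act one w)
        simp [proj_neg]
    | fi r c =>
      show fi r (-(c + m.red N)) :: m.act inv (m.act (tr (m.fsec r N c)) w) =
          fi r (-c + m.red (-N)) :: m.act (tr (m.fsec r (-N) (-c))) (m.act inv w)
      rw [ih, fsec_neg, red_neg, neg_add]

theorem half_add (c : m.V) : m.half c + m.half c = c := by
  funext k
  simp only [RM.half, Pi.add_apply]
  have h : ((2 * m.j + 1 : ℕ) : ZMod (2 * m.j + 1)) = 0 := ZMod.natCast_self _
  push_cast at h ⊢
  linear_combination (c k) * h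

theorem half_double (c : m.V) : m.half (c + c) = c := by
  funext k
  simp only [RM.half, Pi.add_apply]
  have h : ((2 * m.j + 1 : ℕ) : ZMod (2 * m.j + 1)) = 0 := ZMod.natCast_self _
  push_cast at h ⊢
  linear_combination (c k) * h

theorem half_neg (c : m.V) : m.half (-c) = - m.half c := by
  funext k; simp [RM.half]
theorem half_add' (c d : m.V) : m.half (c + d) = m.half c + m.half d := by
  funext k; simp [RM.half, mul_add]
theorem half_zero : m.half (0 : m.V) = 0 := by
  funext k; simp [RM.half]
theorem half_eq_zero {c : m.V} (h : m.half c = 0) : c = 0 := by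
  rw [← half_add c, h, add_zero]
theorem double_inj {c d : m.V} (h : c + c = d + d) : c = d := by
  rw [← half_double c, h, half_double]

theorem act_sw_sw (w : List m.Lt) : m.act sw (m.act sw w) = w := by
  induction w with
  | nil => rfl
  | cons x w ih =>
    rw [act_cons, act_cons]
    show m.swO (m.swO x) :: m.act (m.swN (m.swO x)) (m.act (m.swN x) w) = _
    cases x with
    | rd c b =>
      cases b
      · by_cases h : m.halt (m.half c) = true
        · simp [RM.swO, RM.swN, h]
        · simp [RM.swO, RM.swN, h, half_add, act_tr_add]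
      · by_cases h : c = 0
        · simp only [RM.swO, RM.swN, h, if_true, ih]
        · simp [RM.swO, RM.swN, h]
    | pr r i b =>
      cases b
      · by_cases h : m.halt r = true
        · simp [RM.swO, RM.swN, h]
        · by_cases h2 : i.val + 1 < m.j
          · simp [RM.swO, RM.swN, h, h2]
          · have : (⟨m.j - 1, by have := m.hj; omega⟩ : Fin m.j) = i := by
              ext; simp; omega
            simp [RM.swO, RM.swN, h, h2, this]
      · by_cases h : m.halt r = true
        · simp [RM.swO, RM.swN, h]
        · by_cases h2 : i.val = 0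
          · have : (⟨0, m.hj⟩ : Fin m.j) = i := by
              ext; simp [h2]
            simp [RM.swO, RM.swN, h, h2, this, half_double, act_tr_add]
          · have h3 : i.val - 1 + 1 < m.j := by omega
            have : (⟨i.val - 1 + 1, h3⟩ : Fin m.j) = i := by
              ext; simp; omega
            simp [RM.swO, RM.swN, h, h2, h3, this]
    | fi r c =>
      by_cases h : m.halt r = true
      · simp [RM.swO, RM.swN, h]
      · by_cases h2 : c = -r
        · have h3 : ¬ (m.j - 1 + 1 < m.j) := by omega
          simp [RM.swO, RM.swN, h, h2, h3]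
        · simp [RM.swO, RM.swN, h, h2]

end Pool.Agent.H.MP_56d946_al
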