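import Pool.Agent.H.MP_56d946_al.Mach

set_option autoImplicit false
set_option linter.unusedSectionVars false

namespace Pool.Agent.H.MP_56d946_al

open RM.Lt RM.St

variable {ι : Type} [Fintype ι] (m : RM ι)

/-- Translations. -/
def RM.T (N : ι → ℤ) : Equiv.Perm (List m.Lt) where
  toFun := m.act (tr N)
  invFun := m.act (tr (-N))
  left_inv w := by simp [act_tr_add]
  right_inv w := by simp [act_tr_add]

/-- The inversion. -/
def RM.R : Equiv.Perm (List m.Lt) := Function.Involutive.toPerm (m.act inv) act_inv_inv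

/-- The involution `s`. -/
def RM.S : Equiv.Perm (List m.Lt) := Function.Involutive.toPerm (m.act sw) act_sw_sw

variable {m}

theorem T_apply (N : ι → ℤ) (w : List m.Lt) : m.T N w = m.act (tr N) w := rfl
theorem R_apply (w : List m.Lt) : m.R w = m.act inv w := rfl
theorem S_apply (w : List m.Lt) : m.S w = m.act sw w := rfl

theorem T_add (N M : ι → ℤ) : m.T (N + M) = m.T N * m.T M := by
  ext1 w
  exact (act_tr_add w N M).symm

theorem T_zero : m.T (0 : ι → ℤ) = 1 := by
  ext1 w
  exact act_tr_zero w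

theorem T_neg (N : ι → ℤ) : m.T (-N) = (m.T N)⁻¹ := by
  rw [eq_inv_iff_mul_eq_one, ← T_add, neg_add_cancel, T_zero]

theorem R_sq : m.R * m.R = 1 := by
  ext1 w; exact act_inv_inv w
theorem S_sq : m.S * m.S = 1 := by
  ext1 w; exact act_sw_sw w
theorem R_T (N : ι → ℤ) : m.R * m.T N = m.T (-N) * m.R := by
  ext1 w; exact act_inv_tr w N

variable (m)

/-- The reflections. -/
def RM.rho (M : ι → ℤ) : Equiv.Perm (List m.Lt) := m.T (-M) * m.R * m.T M

/-- The elements attached to the configurations. -/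
def RM.g (M : ι → ℤ) : Equiv.Perm (List m.Lt) := m.S * m.rho M

variable {m}

theorem rho_sq (M : ι → ℤ) : m.rho M * m.rho M = 1 := by
  have h : m.rho M * m.rho M = m.T (-M) * (m.R * (m.T M * m.T (-M)) * m.R) * m.T M := by
    simp only [RM.rho, mul_assoc]
  rw [h, ← T_add, add_neg_cancel, T_zero, mul_one, R_sq, mul_one, ← T_add, neg_add_cancel, T_zero]

theorem rho_conj (M u : ι → ℤ) : (m.T u)⁻¹ * m.rho M * m.T u = m.rho (M + u) := by
  rw [← T_neg, RM.rho, RM.rho, T_add, neg_add_rev, T_add]
  simp only [mul_assoc]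

theorem rho_inv (M : ι → ℤ) : (m.rho M)⁻¹ = m.rho M := by
  rw [inv_eq_iff_mul_eq_one, rho_sq]
theorem S_inv : (m.S)⁻¹ = m.S := by
  rw [inv_eq_iff_mul_eq_one, S_sq]

theorem g_inv (M : ι → ℤ) : (m.g M)⁻¹ = m.rho M * m.S := by
  rw [RM.g, mul_inv_rev, rho_inv, S_inv]

theorem rho_g (M : ι → ℤ) (n : ℕ) : m.rho M * m.g M ^ n = (m.g M)⁻¹ ^ n * m.rho M := by
  have h : m.rho M * m.g M * (m.rho M)⁻¹ = (m.g M)⁻¹ := by
    rw [g_inv, RM.g]; group
  rw [← h, conj_pow]; group

theorem S_g (M : ι → ℤ) (n : ℕ) : m.S * m.g M ^ n = (m.g M)⁻¹ ^ n * m.S := by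
  have h : m.S * m.g M * (m.S)⁻¹ = (m.g M)⁻¹ := by
    rw [g_inv, RM.g, S_inv, ← mul_assoc, S_sq, one_mul]
  rw [← h, conj_pow]; group

theorem S_S (v : List m.Lt) : m.S (m.S v) = v := by
  rw [← Equiv.Perm.mul_apply, S_sq]; rfl
theorem rho_rho (M : ι → ℤ) (v : List m.Lt) : m.rho M (m.rho M v) = v := by
  rw [← Equiv.Perm.mul_apply, rho_sq]; rfl

/-- The fixed points of a power are invariant under `rho`. -/
theorem fix_rho {M : ι → ℤ} {K : ℕ} {v : List m.Lt} (h : (m.g M ^ K) v = v) :
    (m.g M ^ K) (m.rho M v) = m.rho M v := by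
  have h1 : m.rho M ((m.g M ^ K) v) = ((m.g M)⁻¹ ^ K) (m.rho M v) := by
    rw [← Equiv.Perm.mul_apply, rho_g, Equiv.Perm.mul_apply]
  rw [h, inv_pow] at h1
  rw [Equiv.Perm.eq_inv_iff_eq] at h1
  exact h1

theorem fix_S {M : ι → ℤ} {K : ℕ} {v : List m.Lt} (h : (m.g M ^ K) v = v) :
    (m.g M ^ K) (m.S v) = m.S v := by
  have h1 : m.S ((m.g M ^ K) v) = ((m.g M)⁻¹ ^ K) (m.S v) := by
    rw [← Equiv.Perm.mul_apply, S_g, Equiv.Perm.mul_apply]
  rw [h, inv_pow] at h1
  rw [Equiv.Perm.eq_inv_iff_eq] at h1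
  exact h1

/-- Paths with two fixed ends. -/
theorem path_two {M : ι → ℤ} {v : List m.Lt} (i : ℕ) (h0 : m.S v = v)
    (h1 : m.S (m.rho M ((m.g M ^ i) v)) = m.rho M ((m.g M ^ i) v)) :
    (m.g M ^ (2 * i + 2)) v = v := by
  have e1 : (m.g M ^ (i + 1)) v = m.rho M ((m.g M ^ i) v) := by
    rw [pow_succ', Equiv.Perm.mul_apply]
    exact h1
  have e2 : m.rho M ((m.g M ^ i) v) = ((m.g M)⁻¹ ^ i) (m.rho M v) := by
    rw [← Equiv.Perm.mul_apply, rho_g, Equiv.Perm.mul_apply]
  have e3 : (2 * i + 2) = (i + 1) + (i + 1) := by ring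
  rw [e3, pow_add, Equiv.Perm.mul_apply, e1, e2]
  have e4 : m.g M ^ (i + 1) * (m.g M)⁻¹ ^ i = m.g M := by
    rw [inv_pow, pow_succ']; group
  rw [← Equiv.Perm.mul_apply, e4]
  show m.S (m.rho M (m.rho M v)) = v
  rw [rho_rho, h0]

/-! ### The action of the reflections on letters -/

theorem rho_apply (M : ι → ℤ) (v : List m.Lt) :
    m.rho M v = m.act (tr (-M)) (m.act inv (m.act (tr M) v)) := rfl

theorem rho_rd_true (M : ι → ℤ) (c : m.V) (w : List m.Lt) :
    m.rho M (rd c true :: w) = rd (c + (m.red M + m.red M)) false :: w := by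
  rw [rho_apply]
  show rd (c + m.red M - m.red (-M)) false :: m.act (tr 0) (m.act one (m.act (tr 0) w)) = _
  rw [act_tr_zero, act_one, act_tr_zero, red_neg]
  congr 2
  abel

theorem rho_rd_false (M : ι → ℤ) (c : m.V) (w : List m.Lt) :
    m.rho M (rd c false :: w) = rd (c - (m.red M + m.red M)) true :: w := by
  rw [rho_apply]
  show rd (c - m.red M + m.red (-M)) true :: m.act (tr 0) (m.act one (m.act (tr 0) w)) = _
  rw [act_tr_zero, act_one, act_tr_zero, red_neg]
  congr 2
  abel

theorem rho_pr_true (M : ι → ℤ) (r : m.V) (i : Fin m.j) (w : List m.Lt) :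
    m.rho M (pr r i true :: w) = pr r i false :: m.act (tr (m.proj r M + m.proj r M)) w := by
  rw [rho_apply]
  show pr r i false :: m.act (tr (- m.proj r (-M))) (m.act one (m.act (tr (m.proj r M)) w)) = _
  rw [act_one, act_tr_add, proj_neg, neg_neg]

theorem rho_pr_false (M : ι → ℤ) (r : m.V) (i : Fin m.j) (w : List m.Lt) :
    ∃ w', m.rho M (pr r i false :: w) = pr r i true :: w' := ⟨_, rfl⟩

theorem rho_fi (M : ι → ℤ) (r c : m.V) (w : List m.Lt) :
    ∃ w', m.rho M (fi r c :: w) = fi r (-c - (m.red M + m.red M)) :: w' := by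
  rw [rho_apply]
  have : -c - (m.red M + m.red M) = -(c + m.red M) + m.red (-M) := by rw [red_neg]; abel
  rw [this]
  exact ⟨_, rfl⟩

theorem rho_fi_self (M : ι → ℤ) (r : m.V) (w : List m.Lt) :
    m.rho M (fi r (- m.red M) :: w) =
      fi r (- m.red M) :: m.rho (m.fsec r M (- m.red M)) w := by
  rw [rho_apply, rho_apply]
  show fi r (-(-m.red M + m.red M) + m.red (-M)) ::
    m.act (tr (m.fsec r (-M) (-(-m.red M + m.red M)))) (m.act inv
      (m.act (tr (m.fsec r M (- m.red M))) w)) = _
  have h1 : m.fsec r (-M) (-(-m.red M + m.red M)) = - m.fsec r M (- m.red M) := by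
    have h2 := fsec_add r (-M) M (- m.red M)
    rw [neg_add_cancel M, fsec_zero, neg_add_cancel (m.red M)] at h2
    rw [neg_add_cancel, neg_zero]
    exact eq_neg_of_add_eq_zero_left h2
  rw [h1, red_neg]
  congr 2
  abel

/-! ### The chains -/

theorem g_apply (M : ι → ℤ) (v : List m.Lt) : m.g M v = m.S (m.rho M v) := rfl

theorem S_rd_true {c : m.V} (hc : c ≠ 0) (w : List m.Lt) :
    m.S (rd c true :: w) = rd c true :: w := by
  rw [S_apply, act_cons]
  show rd c true :: m.act (m.swN (rd c true)) w = _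
  simp [RM.swN, hc]

theorem S_rd_zero (w : List m.Lt) : m.S (rd 0 true :: w) = rd 0 true :: m.S w := by
  rw [S_apply, act_cons]
  show rd 0 true :: m.act (m.swN (rd 0 true)) w = _
  simp [RM.swN, S_apply]

theorem S_rd_false_halt {c : m.V} (h : m.halt (m.half c) = true) (w : List m.Lt) :
    m.S (rd c false :: w) = rd c false :: w := by
  rw [S_apply, act_cons]
  show m.swO (rd c false) :: m.act (m.swN (rd c false)) w = _
  simp [RM.swN, RM.swO, h]

theorem S_rd_false {c : m.V} (h : ¬ m.halt (m.half c) = true) (w : List m.Lt) :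
    m.S (rd c false :: w) = pr (m.half c) ⟨0, m.hj⟩ true :: m.act (tr (m.cst (m.half c))) w := by
  rw [S_apply, act_cons]
  show m.swO (rd c false) :: m.act (m.swN (rd c false)) w = _
  simp [RM.swN, RM.swO, h]

theorem S_pr_halt {r : m.V} (h : m.halt r = true) (i : Fin m.j) (b : Bool) (w : List m.Lt) :
    m.S (pr r i b :: w) = pr r i b :: w := by
  rw [S_apply, act_cons]
  show m.swO (pr r i b) :: m.act (m.swN (pr r i b)) w = _
  cases b <;> simp [RM.swN, RM.swO, h]

theorem S_fi_halt {r : m.V} (h : m.halt r = true) (c : m.V) (w : List m.Lt) :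
    m.S (fi r c :: w) = fi r c :: w := by
  rw [S_apply, act_cons]
  show m.swO (fi r c) :: m.act (m.swN (fi r c)) w = _
  simp [RM.swN, RM.swO, h]

theorem S_pr_false_next {r : m.V} (h : ¬ m.halt r = true) {i : ℕ} (hi : i + 1 < m.j)
    (w : List m.Lt) :
    m.S (pr r ⟨i, by omega⟩ false :: w) = pr r ⟨i + 1, hi⟩ true :: w := by
  rw [S_apply, act_cons]
  show m.swO (pr r ⟨i, by omega⟩ false) :: m.act (m.swN (pr r ⟨i, by omega⟩ false)) w = _
  simp [RM.swN, RM.swO, h, hi]

theorem S_pr_false_last {r : m.V} (h : ¬ m.halt r = true) {i : Fin m.j} (hi : ¬ i.val + 1 < m.j)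
    (w : List m.Lt) :
    m.S (pr r i false :: w) = fi r (-r) :: w := by
  rw [S_apply, act_cons]
  show m.swO (pr r i false) :: m.act (m.swN (pr r i false)) w = _
  simp [RM.swN, RM.swO, h, hi]

theorem S_pr_true_zero {r : m.V} (h : ¬ m.halt r = true) {i : Fin m.j} (hi : i.val = 0)
    (w : List m.Lt) :
    ∃ w', m.S (pr r i true :: w) = rd (r + r) false :: w' := by
  rw [S_apply, act_cons]
  refine ⟨m.act (m.swN (pr r i true)) w, ?_⟩
  show m.swO (pr r i true) :: m.act (m.swN (pr r i true)) w = _
  simp [RM.swO, h, hi]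

theorem S_pr_true_succ {r : m.V} (h : ¬ m.halt r = true) {i : ℕ} (hi : i + 1 < m.j)
    (w : List m.Lt) :
    ∃ w', m.S (pr r ⟨i + 1, hi⟩ true :: w) = pr r ⟨i, by omega⟩ false :: w' := by
  rw [S_apply, act_cons]
  refine ⟨m.act (m.swN (pr r ⟨i + 1, hi⟩ true)) w, ?_⟩
  show m.swO (pr r ⟨i + 1, hi⟩ true) :: m.act (m.swN (pr r ⟨i + 1, hi⟩ true)) w = _
  simp [RM.swO, h]

theorem S_fi_last {r : m.V} (h : ¬ m.halt r = true) (w : List m.Lt) :
    ∃ w', m.S (fi r (-r) :: w) = pr r ⟨m.j - 1, by have := m.hj; omega⟩ false :: w' := by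
  rw [S_apply, act_cons]
  refine ⟨m.act (m.swN (fi r (-r))) w, ?_⟩
  show m.swO (fi r (-r)) :: m.act (m.swN (fi r (-r))) w = _
  simp [RM.swO, h]

theorem S_fi_other {r c : m.V} (hc : c ≠ -r) (w : List m.Lt) :
    m.S (fi r c :: w) = fi r c :: w := by
  rw [S_apply, act_cons]
  show m.swO (fi r c) :: m.act (m.swN (fi r c)) w = _
  simp [RM.swN, RM.swO, hc]

theorem chain {M : ι → ℤ} {c : m.V} (h : ¬ m.halt (m.half c + m.red M) = true) (w : List m.Lt) :
    ∀ (i : ℕ) (hi : i < m.j), (m.g M ^ (i + 1)) (rd c true :: w) =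
      pr (m.half c + m.red M) ⟨i, hi⟩ true ::
        m.act (tr (m.cst (m.half c + m.red M) +
          (2 * i : ℕ) • m.proj (m.half c + m.red M) M)) w := by
  have hh : m.half (c + (m.red M + m.red M)) = m.half c + m.red M := by
    rw [half_add', half_double]
  intro i
  induction i with
  | zero =>
    intro hi
    rw [zero_add, pow_one, g_apply, rho_rd_true, S_rd_false (by rw [hh]; exact h), hh]
    simp
  | succ i ih =>
    intro hi
    rw [pow_succ', Equiv.Perm.mul_apply, ih (by omega), g_apply, rho_pr_true,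
      S_pr_false_next h hi, act_tr_add]
    have e : m.proj (m.half c + m.red M) M + m.proj (m.half c + m.red M) M +
        (m.cst (m.half c + m.red M) + (2 * i : ℕ) • m.proj (m.half c + m.red M) M) =
        m.cst (m.half c + m.red M) + (2 * (i + 1) : ℕ) • m.proj (m.half c + m.red M) M := by
      have : (2 * (i + 1) : ℕ) = 2 + 2 * i := by ring
      rw [this, add_smul, two_smul]
      abel
    rw [e]

theorem chain_end {M : ι → ℤ} {c : m.V} (h : ¬ m.halt (m.half c + m.red M) = true)
    (w : List m.Lt) :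
    (m.g M ^ (m.j + 1)) (rd c true :: w) =
      fi (m.half c + m.red M) (-(m.half c + m.red M)) ::
        m.act (tr (m.cst (m.half c + m.red M) +
          (2 * m.j : ℕ) • m.proj (m.half c + m.red M) M)) w := by
  have hj := m.hj
  obtain ⟨i, hi⟩ : ∃ i, m.j = i + 1 := ⟨m.j - 1, by omega⟩
  have h1 := chain h w i (by omega)
  rw [pow_succ', Equiv.Perm.mul_apply]
  have h2 : m.g M ^ m.j = m.g M ^ (i + 1) := by rw [hi]
  rw [h2, h1, g_apply, rho_pr_true, S_pr_false_last h (by simp; omega), act_tr_add]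
  have e : m.proj (m.half c + m.red M) M + m.proj (m.half c + m.red M) M +
      (m.cst (m.half c + m.red M) + (2 * i : ℕ) • m.proj (m.half c + m.red M) M) =
      m.cst (m.half c + m.red M) + (2 * m.j : ℕ) • m.proj (m.half c + m.red M) M := by
    have h3 : (2 * m.j : ℕ) = 2 + 2 * i := by omega
    have h4 : ∀ P : ι → ℤ, P + P + (m.cst (m.half c + m.red M) + (2 * i : ℕ) • P) =
        m.cst (m.half c + m.red M) + (2 * m.j : ℕ) • P := by
      intro P
      have h5 : (2 * m.j : ℕ) • P = (2 + 2 * i) • P := congrArg (fun n : ℕ => n • P) h3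
      rw [h5, add_smul, two_smul]
      abel
    exact h4 _
  rw [e]

variable (m)

/-- The vector of the next configuration. -/
def RM.nextV (M : ι → ℤ) : ι → ℤ := fun k =>
  (match m.op (m.red M) k with
    | Op.keep => M k
    | Op.push => (2 * m.j + 1 : ℤ) * M k
    | Op.pop => (M k - rep (m.red M k)) / (2 * m.j + 1 : ℤ)
    | Op.kill => 0) + m.cst (m.red M) k

/-- The step function. -/
def RM.step (M : ι → ℤ) : Option (ι → ℤ) :=
  if m.halt (m.red M) then none else some (m.nextV M)

variable {m}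

theorem nextV_eq (M : ι → ℤ) : m.nextV M = m.fsec (m.red M) M (- m.red M) +
    (m.cst (m.red M) + (2 * m.j : ℕ) • m.proj (m.red M) M) := by
  funext k
  simp only [RM.nextV, RM.fsec, RM.proj, Pi.add_apply, Pi.smul_apply]
  cases h : m.op (m.red M) k <;> simp
  · have := carry_self (j := m.j) (M k)
    simp only [RM.red] at this ⊢
    exact this.symm
  · ring

theorem special {M : ι → ℤ} (h : ¬ m.halt (m.red M) = true) (w : List m.Lt) :
    (m.g M ^ (2 * m.j + 3)) (rd 0 true :: w) = rd 0 true :: m.g (m.nextV M) w := by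
  set u : ι → ℤ := m.cst (m.red M) + (2 * m.j : ℕ) • m.proj (m.red M) M with hu
  have hr : m.half (0 : m.V) + m.red M = m.red M := by rw [half_zero, zero_add]
  have h1 : ∀ w, (m.g M ^ (m.j + 1)) (rd 0 true :: w) = fi (m.red M) (- m.red M) :: m.T u w := by
    intro w
    have := chain_end (M := M) (c := 0) (by rw [hr]; exact h) w
    rw [hr] at this
    exact this
  have h2 : ∀ w, ((m.g M)⁻¹ ^ (m.j + 1)) (fi (m.red M) (- m.red M) :: w) =
      rd 0 true :: (m.T u)⁻¹ w := by
    intro w
    rw [inv_pow, Equiv.Perm.inv_eq_iff_eq, h1]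
    exact congrArg _ (Equiv.apply_symm_apply (m.T u) w).symm
  have h3 : m.g M ^ (2 * m.j + 3) =
      m.S * (m.g M)⁻¹ ^ (m.j + 1) * m.rho M * m.g M ^ (m.j + 1) := by
    have e : 2 * m.j + 3 = (m.j + 1) + (1 + (m.j + 1)) := by ring
    have e2 : m.S * (m.g M)⁻¹ ^ (m.j + 1) = m.g M ^ (m.j + 1) * m.S := by
      have := S_g (m := m) M (m.j + 1)
      have h5 : m.S * (m.g M ^ (m.j + 1)) * m.S = (m.g M)⁻¹ ^ (m.j + 1) := by
        rw [this, mul_assoc, S_sq, mul_one]
      rw [← h5]
      simp only [← mul_assoc]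
      rw [S_sq, one_mul]
    rw [e2, e, pow_add _ (m.j + 1), pow_add _ 1, pow_one]
    show _ * ((m.S * m.rho M) * _) = _
    rw [mul_assoc m.S, ← mul_assoc _ m.S, ← mul_assoc _ (m.rho M)]
  rw [h3]
  simp only [Equiv.Perm.mul_apply]
  rw [h1, rho_fi_self, h2, S_rd_zero]
  congr 1
  show m.S ((m.T u)⁻¹ (m.rho _ (m.T u w))) = _
  rw [nextV_eq, ← hu, RM.g, ← rho_conj]
  rfl

theorem special_halt {M : ι → ℤ} (h : m.halt (m.red M) = true) (w : List m.Lt) :
    (m.g M ^ 4) (rd 0 true :: w) = rd 0 true :: w := by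
  have hh : m.half (0 + (m.red M + m.red M)) = m.red M := by
    rw [half_add', half_double, half_zero, zero_add]
  have h1 : ∀ w, (m.g M ^ 2) (rd 0 true :: w) = rd 0 true :: m.S w := by
    intro w
    rw [pow_two, Equiv.Perm.mul_apply, g_apply M (rd 0 true :: w), rho_rd_true,
      S_rd_false_halt (by rw [hh]; exact h), g_apply, rho_rd_false]
    have : (0 : m.V) + (m.red M + m.red M) - (m.red M + m.red M) = 0 := by abel
    rw [this, S_rd_zero]
  have : m.g M ^ 4 = m.g M ^ 2 * m.g M ^ 2 := by rw [← pow_add]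
  rw [this, Equiv.Perm.mul_apply, h1, h1, S_S]

/-- The good words. -/
def Gd (m : RM ι) (M : ι → ℤ) (K : ℕ) (v : List m.Lt) : Prop :=
  (m.g M ^ K) v = v ∨ (m.g M ^ 2) v = v ∨ (m.g M ^ (2 * m.j + 4)) v = v

theorem Gd.S {M : ι → ℤ} {K : ℕ} {v : List m.Lt} (h : Gd m M K (m.S v)) : Gd m M K v := by
  rcases h with h | h | h
  · left; have := fix_S h; rwa [S_S] at this
  · right; left; have := fix_S h; rwa [S_S] at this
  · right; right; have := fix_S h; rwa [S_S] at this

theorem Gd.rho {M : ι → ℤ} {K : ℕ} {v : List m.Lt} (h : Gd m M K (m.rho M v)) : Gd m M K v := by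
  rcases h with h | h | h
  · left; have := fix_rho h; rwa [rho_rho] at this
  · right; left; have := fix_rho h; rwa [rho_rho] at this
  · right; right; have := fix_rho h; rwa [rho_rho] at this

theorem Gd.of_two {M : ι → ℤ} {K : ℕ} {v : List m.Lt} (h0 : m.S v = v)
    (h1 : m.S (m.rho M v) = m.rho M v) : Gd m M K v := by
  right; left
  have := path_two (M := M) 0 h0 (by simpa using h1)
  simpa using this

theorem all_good {M : ι → ℤ} {K : ℕ}
    (hK : ∀ w : List m.Lt, (m.g M ^ K) (rd 0 true :: w) = rd 0 true :: w) (v : List m.Lt) :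
    Gd m M K v := by
  have hrd : ∀ (c : m.V) (w : List m.Lt), Gd m M K (rd c true :: w) := by
    intro c w
    by_cases hc : c = 0
    · left; rw [hc]; exact hK w
    · have hh : m.half (c + (m.red M + m.red M)) = m.half c + m.red M := by
        rw [half_add', half_double]
      by_cases hr : m.halt (m.half c + m.red M) = true
      · apply Gd.of_two (S_rd_true hc w)
        rw [rho_rd_true, S_rd_false_halt (by rw [hh]; exact hr)]
      · right; right
        have e : 2 * m.j + 4 = 2 * (m.j + 1) + 2 := by ring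
        rw [e]
        apply path_two (m.j + 1) (S_rd_true hc w)
        rw [chain_end hr]
        obtain ⟨w', hw'⟩ := rho_fi M (m.half c + m.red M) (-(m.half c + m.red M))
          (m.act (tr (m.cst (m.half c + m.red M) +
          (2 * m.j : ℕ) • m.proj (m.half c + m.red M) M)) w)
        rw [hw']
        apply S_fi_other
        intro h
        apply hc
        apply half_eq_zero
        have h2 : m.half c + m.half c = 0 := by
          have h3 : (- -(m.half c + m.red M) - (m.red M + m.red M)) + (m.half c + m.red M) = 0 := by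
            rw [h]; abel
          rw [← h3]; abel
        have h4 : m.half c = 0 := by
          rw [half_add] at h2
          rw [h2, half_zero]
        exact h4
  have hrd' : ∀ (c : m.V) (b : Bool) (w : List m.Lt), Gd m M K (rd c b :: w) := by
    intro c b w
    cases b
    · apply Gd.rho
      rw [rho_rd_false]
      exact hrd _ _
    · exact hrd _ _
  have hpr : ∀ (r : m.V) (i : ℕ) (hi : i < m.j) (b : Bool) (w : List m.Lt),
      Gd m M K (pr r ⟨i, hi⟩ b :: w) := by
    intro r i
    by_cases hr : m.halt r = true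
    · intro hi b w
      apply Gd.of_two (S_pr_halt hr _ _ _)
      cases b
      · obtain ⟨w', hw'⟩ := rho_pr_false M r ⟨i, hi⟩ w
        rw [hw']; exact S_pr_halt hr _ _ _
      · rw [rho_pr_true]; exact S_pr_halt hr _ _ _
    · have key : (∀ (hi : i < m.j) (w : List m.Lt), Gd m M K (pr r ⟨i, hi⟩ true :: w)) →
          ∀ (hi : i < m.j) (b : Bool) (w : List m.Lt), Gd m M K (pr r ⟨i, hi⟩ b :: w) := by
        intro hkey hi b w
        cases b
        · apply Gd.rho
          obtain ⟨w', hw'⟩ := rho_pr_false M r ⟨i, hi⟩ w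
          rw [hw']; exact hkey _ _
        · exact hkey _ _
      apply key
      clear key
      induction i with
      | zero =>
        intro hi w
        apply Gd.S
        obtain ⟨w', hw'⟩ := S_pr_true_zero hr (i := ⟨0, hi⟩) rfl w
        rw [hw']; exact hrd' _ _ _
      | succ i ih =>
        intro hi w
        apply Gd.S
        obtain ⟨w', hw'⟩ := S_pr_true_succ hr hi w
        rw [hw']
        apply Gd.rho
        obtain ⟨w'', hw''⟩ := rho_pr_false M r ⟨i, by omega⟩ w'
        rw [hw'']; exact ih _ _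
  have hfi : ∀ (r c : m.V) (w : List m.Lt), Gd m M K (fi r c :: w) := by
    intro r c w
    by_cases hr : m.halt r = true
    · apply Gd.of_two (S_fi_halt hr _ _)
      obtain ⟨w', hw'⟩ := rho_fi M r c w
      rw [hw']; exact S_fi_halt hr _ _
    · have h1 : ∀ w, Gd m M K (fi r (-r) :: w) := by
        intro w
        apply Gd.S
        obtain ⟨w', hw'⟩ := S_fi_last hr w
        rw [hw']; exact hpr _ _ _ _ _
      by_cases hc : c = -r
      · rw [hc]; exact h1 w
      · obtain ⟨w', hw'⟩ := rho_fi M r c w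
        by_cases hc' : -c - (m.red M + m.red M) = -r
        · apply Gd.rho
          rw [hw', hc']; exact h1 _
        · apply Gd.of_two (S_fi_other hc w)
          rw [hw']; exact S_fi_other hc' _
  cases v with
  | nil =>
    right; left
    show (m.g M ^ 2) [] = []
    rw [pow_two]
    rfl
  | cons x w =>
    cases x with
    | rd c b => exact hrd' _ _ _
    | pr r i b => exact hpr r i.val i.isLt b w
    | fi r c => exact hfi _ _ _

theorem fin_of_special {M : ι → ℤ} {K : ℕ} (hK0 : 0 < K)
    (hK : ∀ w : List m.Lt, (m.g M ^ K) (rd 0 true :: w) = rd 0 true :: w) :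
    ∃ L, 0 < L ∧ m.g M ^ L = 1 := by
  refine ⟨K * (2 * (2 * m.j + 4)), by positivity, ?_⟩
  have fixpow : ∀ (a b : ℕ) (v : List m.Lt), (m.g M ^ a) v = v → (m.g M ^ (a * b)) v = v := by
    intro a b v h
    rw [pow_mul]
    exact Equiv.Perm.pow_apply_eq_self_of_apply_eq_self h b
  ext1 v
  show _ = v
  rcases all_good hK v with h | h | h
  · exact fixpow _ _ _ h
  · have := fixpow 2 (K * (2 * m.j + 4)) v h
    rwa [show 2 * (K * (2 * m.j + 4)) = K * (2 * (2 * m.j + 4)) by ring] at this
  · have := fixpow (2 * m.j + 4) (K * 2) v h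
    rwa [show (2 * m.j + 4) * (K * 2) = K * (2 * (2 * m.j + 4)) by ring] at this

/-- Halting from a configuration. -/
def Halts {α : Type} (f : α → Option α) (a : α) : Prop :=
  ∃ b, StateTransition.Reaches f a b ∧ f b = none

theorem fin_of_halts {M : ι → ℤ} (h : Halts m.step M) : ∃ L, 0 < L ∧ m.g M ^ L = 1 := by
  obtain ⟨b, hr, hb⟩ := h
  have hbase : ∀ M, m.step M = none → ∃ L, 0 < L ∧ m.g M ^ L = 1 := by
    intro M hM
    have : m.halt (m.red M) = true := by
      by_contra hh
      simp [RM.step, hh] at hM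
    exact fin_of_special (by norm_num) (special_halt this)
  induction hr using Relation.ReflTransGen.head_induction_on with
  | refl => exact hbase _ hb
  | @head M M' hstep _ ih =>
    obtain ⟨L, hL, hg⟩ := ih
    have hh : ¬ m.halt (m.red M) = true := by
      intro hh
      simp [RM.step, hh] at hstep
    have hM' : m.nextV M = M' := by
      simpa [RM.step, hh] using hstep
    refine fin_of_special (K := (2 * m.j + 3) * L) (by positivity) ?_
    intro w
    have key : ∀ (L : ℕ) (w : List m.Lt), (m.g M ^ ((2 * m.j + 3) * L)) (rd 0 true :: w) =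
        rd 0 true :: (m.g M' ^ L) w := by
      intro L
      induction L with
      | zero => intro w; simp
      | succ L ih =>
        intro w
        rw [mul_add, mul_one, pow_add, Equiv.Perm.mul_apply, special hh, hM', ih, pow_succ,
          Equiv.Perm.mul_apply]
    rw [key, hg]; rfl

/-- The action of `g` on letters. -/
def gl (m : RM ι) (M : ι → ℤ) (x : m.Lt) : m.Lt :=
  m.out sw (m.out (tr (-M)) (m.out inv (m.out (tr M) x)))

theorem g_head (M : ι → ℤ) (x : m.Lt) (w : List m.Lt) :
    (m.g M (x :: w)).head? = some (gl m M x) := rfl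

theorem g_pow_head (M : ι → ℤ) (n : ℕ) : ∀ (x : m.Lt) (w : List m.Lt),
    ((m.g M ^ n) (x :: w)).head? = some ((gl m M)^[n] x) := by
  induction n with
  | zero => intro x w; rfl
  | succ n ih =>
    intro x w
    rw [pow_succ, Equiv.Perm.mul_apply]
    have h := g_head M x w
    cases hv : m.g M (x :: w) with
    | nil => rw [hv] at h; simp at h
    | cons y w' =>
      rw [hv] at h
      simp only [List.head?_cons, Option.some.injEq] at h
      rw [ih, h, Function.iterate_succ, Function.comp]

theorem gl_ne (M : ι → ℤ) : gl m M (rd 0 true) ≠ rd 0 true := by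
  intro h
  have h1 := g_head (m := m) M (rd 0 true) []
  rw [h, g_apply, rho_rd_true] at h1
  by_cases hh : m.halt (m.half (0 + (m.red M + m.red M))) = true
  · rw [S_rd_false_halt hh] at h1
    simp at h1
  · rw [S_rd_false hh] at h1
    simp at h1

theorem halts_of_fin (K : ℕ) : ∀ M : ι → ℤ, 0 < K → m.g M ^ K = 1 → Halts m.step M := by
  induction K using Nat.strong_induction_on with
  | _ K ih =>
    intro M hK hg
    by_cases hh : m.halt (m.red M) = true
    · exact ⟨M, Relation.ReflTransGen.refl, by simp [RM.step, hh]⟩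
    · have hp1 : Function.IsPeriodicPt (gl m M) K (rd 0 true) := by
        have := g_pow_head (m := m) M K (rd 0 true) []
        rw [hg] at this
        exact (Option.some.inj this).symm
      have hp2 : Function.IsPeriodicPt (gl m M) (2 * m.j + 3) (rd 0 true) := by
        have := g_pow_head (m := m) M (2 * m.j + 3) (rd 0 true) []
        rw [special hh] at this
        exact (Option.some.inj this).symm
      set d := Function.minimalPeriod (gl m M) (rd 0 true) with hd
      have hd1 : d ∣ K := hp1.minimalPeriod_dvd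
      have hd2 : d ∣ 2 * m.j + 3 := hp2.minimalPeriod_dvd
      have hd0 : 0 < d := Nat.pos_of_dvd_of_pos hd1 hK
      have hdne : d ≠ 1 := by
        intro h1
        have h2 := Function.isPeriodicPt_minimalPeriod (gl m M) (rd 0 true)
        rw [← hd] at h2
        rw [h1] at h2
        exact gl_ne M h2
      obtain ⟨K', hK'⟩ := hd1
      obtain ⟨e, he⟩ := hd2
      have hK'0 : 0 < K' := by
        rcases Nat.eq_zero_or_pos K' with h | h
        · rw [h, mul_zero] at hK'; omega
        · exact h
      have hlt : K' < K := by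
        rw [hK']
        have : 2 ≤ d := by omega
        nlinarith
      have key : ∀ (L : ℕ) (w : List m.Lt), (m.g M ^ ((2 * m.j + 3) * L)) (rd 0 true :: w) =
          rd 0 true :: (m.g (m.nextV M) ^ L) w := by
        intro L
        induction L with
        | zero => intro w; simp
        | succ L ih =>
          intro w
          rw [mul_add, mul_one, pow_add, Equiv.Perm.mul_apply, special hh, ih, pow_succ,
            Equiv.Perm.mul_apply]
      have hg' : m.g (m.nextV M) ^ K' = 1 := by
        ext1 w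
        have h1 := key K' w
        have h2 : (2 * m.j + 3) * K' = K * e := by rw [he, hK']; ring
        rw [h2, pow_mul, hg, one_pow] at h1
        simp only [Equiv.Perm.one_apply, List.cons.injEq, true_and] at h1
        exact h1.symm
      obtain ⟨b, hb1, hb2⟩ := ih K' hlt (m.nextV M) hK'0 hg'
      refine ⟨b, Relation.ReflTransGen.head ?_ hb1, hb2⟩
      simp [RM.step, hh]

/-- The order of the element is finite exactly when the machine halts. -/
theorem order_iff (M : ι → ℤ) : IsOfFinOrder (m.g M) ↔ Halts m.step M := by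
  rw [isOfFinOrder_iff_pow_eq_one]
  constructor
  · rintro ⟨K, hK, hg⟩
    exact halts_of_fin K M hK hg
  · intro h
    exact fin_of_halts h

end Pool.Agent.H.MP_56d946_al
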