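import Pool.Agent.H.MP_56d946_al.Order

set_option autoImplicit false
set_option linter.unusedSectionVars false

namespace Pool.Agent.H.MP_56d946_al

open Function (update)

/-- Instructions of a machine with several stacks. -/
inductive Instr (P K Γ₀ : Type)
  | halt
  | jump (p : P)
  | push (k : K) (a : Γ₀) (p : P)
  | pop (k : K) (f : Option Γ₀ → P)
  | peek (k : K) (f : Option Γ₀ → P)

variable {P K Γ₀ : Type} [DecidableEq K]

/-- The step function of a machine with several stacks. -/
def smstep (δ : P → Instr P K Γ₀) (c : P × (K → List Γ₀)) : Option (P × (K → List Γ₀)) :=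
  match δ c.1 with
  | Instr.halt => none
  | Instr.jump p' => some (p', c.2)
  | Instr.push k a p' => some (p', update c.2 k (a :: c.2 k))
  | Instr.pop k f => some (f (c.2 k).head?, update c.2 k (c.2 k).tail)
  | Instr.peek k f => some (f (c.2 k).head?, c.2)

/-- A stack as a number. -/
def num (dg : Γ₀ → ℕ) (q : ℕ) : List Γ₀ → ℤ
  | [] => 0
  | a :: l => dg a + q * num dg q l

/-- The vector of a configuration. -/
def enc (idx : P → ℕ) (dg : Γ₀ → ℕ) (q : ℕ) (c : P × (K → List Γ₀)) : Option K → ℤ
  | none => idx c.1
  | some k => num dg q (c.2 k)

/-- Every machine with several stacks is simulated by a residue machine. -/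
theorem exists_rm [Fintype K] [Fintype Γ₀] (δ : P → Instr P K Γ₀) (Q : Set P) (hQ : Q.Finite) :
    ∃ (m : RM (Option K)) (idx : P → ℕ) (dg : Γ₀ → ℕ), ∀ p ∈ Q, ∀ S : K → List Γ₀,
      m.step (enc idx dg (2 * m.j + 1) (p, S)) =
        (smstep δ (p, S)).map (enc idx dg (2 * m.j + 1)) := by
  classical
  -- numbers of states
  let F := hQ.toFinset
  let e := F.equivFin
  let idx : P → ℕ := fun p => if h : p ∈ F then (e ⟨p, h⟩ : ℕ) else 0
  let dec : ℕ → Option P := fun i => if h : i < F.card then some (e.symm ⟨i, h⟩).1 else none
  have hidx : ∀ p, idx p ≤ F.card := by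
    intro p
    simp only [idx]
    split
    · exact (e _).isLt.le
    · omega
  have hdec : ∀ p ∈ Q, dec (idx p) = some p := by
    intro p hp
    have hp' : p ∈ F := hQ.mem_toFinset.mpr hp
    simp only [dec, idx, hp', dif_pos, (e ⟨p, hp'⟩).isLt]
    simp
  -- digits
  let e2 := Fintype.equivFin Γ₀
  let dg : Γ₀ → ℕ := fun a => (e2 a : ℕ) + 1
  let sym : ℕ → Option Γ₀ := fun i =>
    if h : 1 ≤ i ∧ i - 1 < Fintype.card Γ₀ then some (e2.symm ⟨i - 1, h.2⟩) else none
  have hdg : ∀ a, dg a ≤ Fintype.card Γ₀ := by
    intro a
    have := (e2 a).isLt
    simp only [dg]; omega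
  have hsym : ∀ a, sym (dg a) = some a := by
    intro a
    have h1 : 1 ≤ dg a ∧ dg a - 1 < Fintype.card Γ₀ := by
      have := (e2 a).isLt
      simp only [dg]; omega
    simp only [sym, h1, dif_pos, and_self]
    have : (⟨dg a - 1, h1.2⟩ : Fin (Fintype.card Γ₀)) = e2 a := by
      ext; simp [dg]
    rw [this]; simp
  have hsym0 : sym 0 = none := by simp [sym]
  let j := F.card + Fintype.card Γ₀ + 1
  let rd : ZMod (2 * j + 1) → ℕ := fun c => (rep c).toNat
  let tgt : (Option K → ZMod (2 * j + 1)) → P → P := fun r p =>
    match δ p with
    | Instr.halt => p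
    | Instr.jump p' => p'
    | Instr.push _ _ p' => p'
    | Instr.pop k f => f (sym (rd (r (some k))))
    | Instr.peek k f => f (sym (rd (r (some k))))
  let hl : P → Bool := fun p =>
    match δ p with
    | Instr.halt => true
    | _ => false
  let opp : P → K → Op := fun p k' =>
    match δ p with
    | Instr.push k _ _ => if k' = k then Op.push else Op.keep
    | Instr.pop k _ => if k' = k then Op.pop else Op.keep
    | _ => Op.keep
  let cc : P → K → ℤ := fun p k' =>
    match δ p with
    | Instr.push k a _ => if k' = k then (dg a : ℤ) else 0
    | _ => 0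
  let m : RM (Option K) :=
    { j := j
      hj := by simp only [j]; omega
      halt := fun r => match dec (rd (r none)) with
        | none => true
        | some p => hl p
      op := fun r o => match o with
        | none => Op.kill
        | some k' => match dec (rd (r none)) with
          | none => Op.keep
          | some p => opp p k'
      cst := fun r o => match dec (rd (r none)) with
        | none => 0
        | some p => match o with
          | none => idx (tgt r p)
          | some k' => cc p k' }
  refine ⟨m, idx, dg, ?_⟩
  intro p hp S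
  set N := enc idx dg (2 * m.j + 1) (p, S) with hN
  have hr0 : rd (m.red N none) = idx p := by
    have h1 : rep (m.red N none) = idx p := by
      have h2 : m.red N none = ((idx p : ℕ) : ZMod (2 * j + 1)) := by
        show ((N none : ℤ) : ZMod (2 * j + 1)) = _
        simp [hN, enc]
      rw [h2]
      exact rep_nat (j := j) (by
        have := hidx p
        show idx p ≤ F.card + Fintype.card Γ₀ + 1
        omega)
    simp only [rd]
    rw [h1]; simp
  have hrk : ∀ k, rep (m.red N (some k)) = (match S k with | [] => 0 | a :: _ => (dg a : ℤ)) := by
    intro k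
    have h2 : m.red N (some k) = (((match S k with | [] => 0 | a :: _ => dg a) : ℕ) :
        ZMod (2 * j + 1)) := by
      show ((N (some k) : ℤ) : ZMod (2 * j + 1)) = _
      simp only [hN, enc]
      cases S k with
      | nil => simp [num]
      | cons a l =>
        simp only [num]
        have h3 : (((2 * m.j + 1 : ℕ) : ℤ) : ZMod (2 * j + 1)) = 0 := by
          have := ZMod.natCast_self (2 * j + 1)
          exact_mod_cast this
        push_cast at h3 ⊢
        rw [h3]; ring
    rw [h2]
    cases S k with
    | nil =>
      show rep ((0 : ℕ) : ZMod (2 * j + 1)) = 0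
      rw [Nat.cast_zero, rep_zero]
    | cons a l =>
      show rep ((dg a : ℕ) : ZMod (2 * j + 1)) = dg a
      exact rep_nat (j := j) (by
        have := hdg a
        show dg a ≤ F.card + Fintype.card Γ₀ + 1
        omega)
  have hsk : ∀ k, sym (rd (m.red N (some k))) = (S k).head? := by
    intro k
    simp only [rd]
    rw [hrk]
    cases S k with
    | nil => simpa using hsym0
    | cons a l => simpa using hsym a
  have hd : dec (rd (m.red N none)) = some p := by rw [hr0, hdec p hp]
  have hhalt : m.halt (m.red N) = hl p := by
    show (match dec (rd (m.red N none)) with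
        | none => true
        | some p => hl p) = hl p
    rw [hd]
  have hop0 : m.op (m.red N) none = Op.kill := rfl
  have hopk : ∀ k, m.op (m.red N) (some k) = opp p k := by
    intro k
    show (match dec (rd (m.red N none)) with
          | none => Op.keep
          | some p => opp p k) = opp p k
    rw [hd]
  have hc0 : m.cst (m.red N) none = idx (tgt (m.red N) p) := by
    show (match dec (rd (m.red N none)) with
        | none => (0 : ℤ)
        | some p => ((idx (tgt (m.red N) p) : ℕ) : ℤ)) = _
    rw [hd]
  have hck : ∀ k, m.cst (m.red N) (some k) = cc p k := by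
    intro k
    show (match dec (rd (m.red N none)) with
        | none => (0 : ℤ)
        | some p => cc p k) = _
    rw [hd]
  have hNk : ∀ k, N (some k) = num dg (2 * m.j + 1) (S k) := fun k => rfl
  have hq0 : (2 * m.j + 1 : ℤ) ≠ 0 := by positivity
  have hpop : ∀ k, (N (some k) - rep (m.red N (some k))) / (2 * m.j + 1 : ℤ) =
      num dg (2 * m.j + 1) (S k).tail := by
    intro k
    rw [hrk, hNk]
    cases S k with
    | nil => simp [num]
    | cons a l =>
      simp only [num, List.tail_cons]
      push_cast
      rw [add_sub_cancel_left, Int.mul_ediv_cancel_left _ hq0]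
  have hkeepk : ∀ k, opp p k = Op.keep → cc p k = 0 → m.nextV N (some k) = N (some k) := by
    intro k h1 h2
    simp only [RM.nextV, hopk, h1, hck, h2, add_zero]
  have hnext0 : m.nextV N none = idx (tgt (m.red N) p) := by
    simp only [RM.nextV, hop0, hc0, zero_add]
  unfold RM.step
  rw [hhalt]
  cases hδ : δ p with
  | halt =>
    have h1 : hl p = true := by simp only [hl, hδ]
    simp [h1, smstep, hδ]
  | jump p' =>
    have h1 : hl p = false := by simp only [hl, hδ]
    have h2 : tgt (m.red N) p = p' := by simp only [tgt, hδ]
    have h3 : ∀ k, opp p k = Op.keep := by intro k; simp only [opp, hδ]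
    have h4 : ∀ k, cc p k = 0 := by intro k; simp only [cc, hδ]
    simp only [h1, smstep, hδ, Option.map_some, Bool.false_eq_true, if_false]
    congr 1
    funext o
    cases o with
    | none => rw [hnext0, h2]; rfl
    | some k => rw [hkeepk k (h3 k) (h4 k)]; rfl
  | push k a p' =>
    have h1 : hl p = false := by simp only [hl, hδ]
    have h2 : tgt (m.red N) p = p' := by simp only [tgt, hδ]
    simp only [h1, smstep, hδ, Option.map_some, Bool.false_eq_true, if_false]
    congr 1
    funext o
    cases o with
    | none => rw [hnext0, h2]; rfl
    | some k' =>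
      by_cases hk : k' = k
      · subst hk
        have h3 : opp p k' = Op.push := by simp [opp, hδ]
        have h4 : cc p k' = dg a := by simp [cc, hδ]
        simp only [RM.nextV, hopk, h3, hck, h4, enc, Function.update_self, num, hNk]
        push_cast; ring
      · have h3 : opp p k' = Op.keep := by simp [opp, hδ, hk]
        have h4 : cc p k' = 0 := by simp [cc, hδ, hk]
        rw [hkeepk k' h3 h4]
        simp only [enc, Function.update_of_ne hk]
        rfl
  | pop k f =>
    have h1 : hl p = false := by simp only [hl, hδ]
    have h2 : tgt (m.red N) p = f (S k).head? := by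
      simp only [tgt, hδ]; rw [hsk]
    have h4 : ∀ k, cc p k = 0 := by intro k; simp only [cc, hδ]
    simp only [h1, smstep, hδ, Option.map_some, Bool.false_eq_true, if_false]
    congr 1
    funext o
    cases o with
    | none => rw [hnext0, h2]; rfl
    | some k' =>
      by_cases hk : k' = k
      · subst hk
        have h3 : opp p k' = Op.pop := by simp [opp, hδ]
        simp only [RM.nextV, hopk, h3, hck, h4, enc, Function.update_self, add_zero]
        exact hpop k'
      · have h3 : opp p k' = Op.keep := by simp [opp, hδ, hk]
        rw [hkeepk k' h3 (h4 k')]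
        simp only [enc, Function.update_of_ne hk]
        rfl
  | peek k f =>
    have h1 : hl p = false := by simp only [hl, hδ]
    have h2 : tgt (m.red N) p = f (S k).head? := by
      simp only [tgt, hδ]; rw [hsk]
    have h3 : ∀ k, opp p k = Op.keep := by intro k; simp only [opp, hδ]
    have h4 : ∀ k, cc p k = 0 := by intro k; simp only [cc, hδ]
    simp only [h1, smstep, hδ, Option.map_some, Bool.false_eq_true, if_false]
    congr 1
    funext o
    cases o with
    | none => rw [hnext0, h2]; rfl
    | some k => rw [hkeepk k (h3 k) (h4 k)]; rfl

end Pool.Agent.H.MP_56d946_al
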